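import Pool.Agent.H709.HB.Lym

set_option autoImplicit false

/-! Random centres: at all distances from all points there are few of them. -/

namespace Pool.Agent.H709.HB

open Finset

variable {n : ℕ}

/-- The number of the points at distance `ρ` of `y`. -/
def sph (y : Fin n → Bool) (ρ : ℕ) : ℕ :=
  (univ.filter fun v : Fin n → Bool => hammingDist v y = ρ).card

/-- The number of the centres at distance `ρ` of `y`. -/
def mlt {N : ℕ} (c : Fin N → Fin n → Bool) (y : Fin n → Bool) (ρ : ℕ) : ℕ :=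
  (univ.filter fun i => hammingDist (c i) y = ρ).card

theorem sum_pow_mlt (N : ℕ) (y : Fin n → Bool) (ρ : ℕ) :
    ∑ c : Fin N → Fin n → Bool, (2 : ℝ) ^ mlt c y ρ = (2 ^ n + sph y ρ) ^ N := by
  have h1 : ∀ c : Fin N → Fin n → Bool, (2 : ℝ) ^ mlt c y ρ =
      ∏ i, if hammingDist (c i) y = ρ then (2 : ℝ) else 1 := by
    intro c
    rw [prod_ite, prod_const, prod_const_one, mul_one]
    rfl
  have h2 : (∑ v : Fin n → Bool, if hammingDist v y = ρ then (2 : ℝ) else 1) =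
      2 ^ n + sph y ρ := by
    have h3 : ∀ v : Fin n → Bool, (if hammingDist v y = ρ then (2 : ℝ) else 1) =
        1 + if hammingDist v y = ρ then (1 : ℝ) else 0 := by
      intro v
      split_ifs <;> norm_num
    simp_rw [h3, sum_add_distrib, sum_boole]
    simp [sph]
  rw [← h2, Fintype.sum_pow]
  exact sum_congr rfl fun c _ => h1 c

theorem exists_code (n N : ℕ) : ∃ c : Fin N → Fin n → Bool, ∀ y : Fin n → Bool, ∀ ρ ≤ n,
    mlt c y ρ * 2 ^ n ≤ 2 * n * 2 ^ n + 2 * N * sph y ρ := by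
  have hp : (0 : ℝ) < 2 ^ n := by positivity
  have h1 : ∀ (y : Fin n → Bool) (ρ : ℕ), ∑ c : Fin N → Fin n → Bool,
      (2 : ℝ) ^ mlt c y ρ / Real.exp (N * sph y ρ / 2 ^ n) ≤ (2 ^ n) ^ N := by
    intro y ρ
    rw [← sum_div, sum_pow_mlt, div_le_iff₀ (Real.exp_pos _)]
    have h2 : (2 : ℝ) ^ n + sph y ρ ≤ 2 ^ n * Real.exp (sph y ρ / 2 ^ n) := by
      have h3 := Real.add_one_le_exp ((sph y ρ : ℝ) / 2 ^ n)
      have h4 := mul_le_mul_of_nonneg_left h3 hp.le
      have h5 : (2 : ℝ) ^ n * (sph y ρ / 2 ^ n + 1) = 2 ^ n + sph y ρ := by field_simp; ring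
      linarith
    calc ((2 : ℝ) ^ n + sph y ρ) ^ N ≤ (2 ^ n * Real.exp (sph y ρ / 2 ^ n)) ^ N :=
          pow_le_pow_left₀ (by positivity) h2 N
      _ = (2 ^ n) ^ N * Real.exp (N * sph y ρ / 2 ^ n) := by
          rw [mul_pow, ← Real.exp_nat_mul]
          congr 2
          ring
  have h2 : ∑ c : Fin N → Fin n → Bool, ∑ y : Fin n → Bool, ∑ ρ ∈ range (n + 1),
      (2 : ℝ) ^ mlt c y ρ / Real.exp (N * sph y ρ / 2 ^ n) ≤
      ∑ _c : Fin N → Fin n → Bool, (2 ^ n * (n + 1) : ℝ) := by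
    rw [sum_comm]
    calc ∑ y : Fin n → Bool, ∑ c : Fin N → Fin n → Bool, ∑ ρ ∈ range (n + 1),
          (2 : ℝ) ^ mlt c y ρ / Real.exp (N * sph y ρ / 2 ^ n)
        = ∑ y : Fin n → Bool, ∑ ρ ∈ range (n + 1), ∑ c : Fin N → Fin n → Bool,
          (2 : ℝ) ^ mlt c y ρ / Real.exp (N * sph y ρ / 2 ^ n) :=
          sum_congr rfl fun y _ => sum_comm
      _ ≤ ∑ y : Fin n → Bool, ∑ ρ ∈ range (n + 1), ((2 : ℝ) ^ n) ^ N :=
          sum_le_sum fun y _ => sum_le_sum fun ρ _ => h1 y ρ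
      _ = ∑ _c : Fin N → Fin n → Bool, (2 ^ n * (n + 1) : ℝ) := by
          simp only [sum_const, card_range, card_univ, Fintype.card_fun, Fintype.card_bool,
            Fintype.card_fin, nsmul_eq_mul]
          push_cast
          ring
  obtain ⟨c, -, hc⟩ := exists_le_of_sum_le (univ_nonempty) h2
  refine ⟨c, fun y ρ hρ => ?_⟩
  have h3 : (2 : ℝ) ^ mlt c y ρ / Real.exp (N * sph y ρ / 2 ^ n) ≤ 2 ^ n * (n + 1) := by
    refine le_trans ?_ hc
    have h4 : ∀ y' : Fin n → Bool, 0 ≤ ∑ ρ ∈ range (n + 1),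
        (2 : ℝ) ^ mlt c y' ρ / Real.exp (N * sph y' ρ / 2 ^ n) := fun y' =>
      sum_nonneg fun _ _ => by positivity
    refine le_trans ?_ (single_le_sum (fun y' _ => h4 y') (mem_univ y))
    exact single_le_sum (f := fun ρ => (2 : ℝ) ^ mlt c y ρ / Real.exp (N * sph y ρ / 2 ^ n))
      (fun _ _ => by positivity) (mem_range.2 (by omega))
  have h4 : (n : ℝ) + 1 ≤ 2 ^ n := by exact_mod_cast Nat.lt_two_pow_self
  have h5 : (2 : ℝ) ^ mlt c y ρ ≤ 2 ^ (2 * n) * Real.exp (N * sph y ρ / 2 ^ n) := by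
    rw [div_le_iff₀ (Real.exp_pos _)] at h3
    refine h3.trans (mul_le_mul_of_nonneg_right ?_ (Real.exp_pos _).le)
    calc (2 : ℝ) ^ n * (n + 1) ≤ 2 ^ n * 2 ^ n := mul_le_mul_of_nonneg_left h4 hp.le
      _ = 2 ^ (2 * n) := by ring
  have h6 := Real.log_le_log (by positivity) h5
  rw [Real.log_mul (by positivity) (Real.exp_pos _).ne', Real.log_exp, Real.log_pow,
    Real.log_pow] at h6
  have hl : (1 / 2 : ℝ) < Real.log 2 := by have := Real.log_two_gt_d9; linarith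
  have hl' : (0 : ℝ) < Real.log 2 := by linarith
  push_cast at h6
  have h7 : (mlt c y ρ : ℝ) ≤ 2 * n + 2 * (N * sph y ρ / 2 ^ n) := by
    by_contra h
    push Not at h
    have h8 : (0 : ℝ) ≤ N * sph y ρ / 2 ^ n := by positivity
    nlinarith
  have h8 : (mlt c y ρ : ℝ) * 2 ^ n ≤ 2 * n * 2 ^ n + 2 * N * sph y ρ := by
    have h9 := mul_le_mul_of_nonneg_right h7 hp.le
    have h10 : (2 * (n : ℝ) + 2 * (N * sph y ρ / 2 ^ n)) * 2 ^ n =
        2 * n * 2 ^ n + 2 * N * sph y ρ := by field_simp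
    linarith
  exact_mod_cast h8

end Pool.Agent.H709.HB
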