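import Pool.Agent.H709.HB.Main

set_option autoImplicit false

namespace Pool.Agent.H709.HB

open Pool.Agent.H.MP_d04dff_lc Pool.Agent.Lib.helper21.KC

variable {U : List Bool →. List Bool}

theorem eq_ofFn {n : ℕ} {v : List Bool} (h : v.length = n) : ∃ y : Fin n → Bool, v = List.ofFn y := by
  subst h
  exact ⟨v.get, (List.ofFn_get v).symm⟩

open Classical in
/-- The points in `Low`. -/
noncomputable def lowSet (U : List Bool →. List Bool) (n m d : ℕ) : Finset (Fin n → Bool) :=
  Finset.univ.filter fun z => Low U n m d (List.ofFn z)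

theorem low_ofFn {n m d : ℕ} {z : Fin n → Bool} :
    Low U n m d (List.ofFn z) ↔ ∀ y : Fin n → Bool, hammingDist z y ≤ d → K U (List.ofFn y) ≤ m := by
  constructor
  · rintro ⟨-, h⟩ y hy
    have := h (List.ofFn y) (mem_allS.2 (List.length_ofFn))
    rw [hl_ofFn] at this
    tauto
  · intro h
    refine ⟨List.length_ofFn, fun v hv => ?_⟩
    obtain ⟨y, rfl⟩ := eq_ofFn (mem_allS.1 hv)
    rw [hl_ofFn]
    by_cases h1 : hammingDist z y ≤ d
    · exact Or.inr (h y h1)
    · exact Or.inl h1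

theorem mem_lowSet {n m d : ℕ} {z : Fin n → Bool} :
    z ∈ lowSet U n m d ↔ ∀ y : Fin n → Bool, hammingDist z y ≤ d → K U (List.ofFn y) ≤ m := by
  classical
  rw [lowSet, Finset.mem_filter, low_ofFn]
  simp

theorem le_maxC {n d : ℕ} {x y : Fin n → Bool} (h : hammingDist x y ≤ d) :
    K U (List.ofFn y) ≤ maxC U x d :=
  Finset.le_sup (f := fun y => K U (List.ofFn y)) (by simpa using h)

theorem self_mem {n d : ℕ} (x : Fin n → Bool) : x ∈ lowSet U n (maxC U x d) d :=
  mem_lowSet.2 fun _ hy => le_maxC hy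

theorem exists_maxC {n : ℕ} (x : Fin n → Bool) (d : ℕ) :
    ∃ y, hammingDist x y ≤ d ∧ maxC U x d = K U (List.ofFn y) := by
  obtain ⟨y, h1, h2⟩ := Finset.exists_mem_eq_sup (Finset.univ.filter fun y => hammingDist x y ≤ d)
    ⟨x, by simp⟩ fun y => K U (List.ofFn y)
  exact ⟨y, by simpa using h1, h2⟩

theorem card_low (hU : Opt U) (n m d : ℕ) (F : Finset (Fin n → Bool))
    (hF : ∀ y ∈ F, K U (List.ofFn y) ≤ m) : F.card < 2 ^ (m + 1) := by
  classical
  by_contra h
  refine hU.few m ⟨F.image List.ofFn, ?_, fun s hs => ?_⟩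
  · rw [Finset.card_image_of_injective _ List.ofFn_injective]
    exact not_lt.1 h
  · obtain ⟨y, hy, rfl⟩ := Finset.mem_image.1 hs
    exact hF y hy

theorem near_iff {n m d e : ℕ} {v : List Bool} :
    Near U [n, m, d, e] v ↔ ∃ y ∈ nb (lowSet U n m d) e, v = List.ofFn y := by
  classical
  constructor
  · rintro ⟨z, h1, h2, h3⟩
    simp only [List.getD_cons_zero, List.getD_cons_succ] at h1 h2 h3
    obtain ⟨y, rfl⟩ := eq_ofFn h2
    obtain ⟨z', rfl⟩ := eq_ofFn h1.1
    rw [hl_ofFn] at h3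
    exact ⟨y, mem_nb.2 ⟨z', mem_lowSet.2 (low_ofFn.1 h1), h3⟩, rfl⟩
  · rintro ⟨y, hy, rfl⟩
    obtain ⟨z, h1, h2⟩ := mem_nb.1 hy
    refine ⟨List.ofFn z, ?_, ?_, ?_⟩
    · simpa using low_ofFn.2 (mem_lowSet.1 h1)
    · simp
    · simpa [hl_ofFn] using h2

theorem not_many {n m d e l : ℕ} (h : (nb (lowSet U n m d) e).card ≤ 2 ^ l) :
    ¬ Many (2 ^ l + 1) (Near U [n, m, d, e]) := by
  classical
  rintro ⟨F, h1, h2⟩
  have h3 : F ⊆ (nb (lowSet U n m d) e).image List.ofFn := by
    intro v hv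
    obtain ⟨y, hy, rfl⟩ := near_iff.1 (h2 v hv)
    exact Finset.mem_image_of_mem _ hy
  have h4 := (Finset.card_le_card h3).trans Finset.card_image_le
  omega

theorem grow (hU : Opt U) : ∃ c : ℝ, ∀ (n : ℕ) (x : Fin n → Bool) (d e : ℕ), d ≤ e → e ≤ n →
    (maxC U x e : ℝ) ≤ maxC U x d + (Real.logb 2 (vol n e) - Real.logb 2 (vol n d)) +
      c * Real.logb 2 (2 + n) := by
  classical
  obtain ⟨b, hb⟩ := hU.base
  obtain ⟨c, hc⟩ := hU.enumL (near_sig hU) 4 (b + 1)
  refine ⟨2 * c + 2, fun n x d e hde he => ?_⟩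
  obtain ⟨y, hy, hy'⟩ := exists_maxC (U := U) x e
  set m := maxC U x d with hm
  have hmn : m ≤ n + b := by
    obtain ⟨w, -, hw⟩ := exists_maxC (U := U) x d
    rw [hm, hw]
    simpa using hb (List.ofFn w)
  set S := lowSet U n m d with hS
  have h1 : (nb S d).card < 2 ^ (m + 1) := by
    refine card_low hU n m d _ fun w hw => ?_
    obtain ⟨z, hz, hz'⟩ := mem_nb.1 hw
    exact mem_lowSet.1 hz w hz'
  have h2 := nb_vol S hde
  have hxS : x ∈ S := self_mem x
  have hyS : y ∈ nb S e := mem_nb.2 ⟨x, hxS, hy⟩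
  have hpos : 0 < (nb S e).card := Finset.card_pos.2 ⟨y, hyS⟩
  set l := Nat.clog 2 (nb S e).card with hl'
  have h3 : (nb S e).card ≤ 2 ^ l := Nat.le_pow_clog one_lt_two _
  have h4 : (nb S e).card ≤ 2 ^ n := by
    refine (Finset.card_le_univ _).trans ?_
    simp
  have h5 : l ≤ n := Nat.clog_le_of_le_pow h4
  have h6 := hc n [n, m, d, e] (List.ofFn y) l (by simp) (by
      intro z hz
      simp only [List.mem_cons, List.not_mem_nil, or_false] at hz
      rcases hz with rfl | rfl | rfl | rfl <;> nlinarith) (by nlinarith)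
    (near_iff.2 ⟨y, hyS, rfl⟩) (not_many h3)
  have h7 : (2 : ℝ) ^ l ≤ 2 * (nb S e).card := by
    rcases Nat.eq_zero_or_pos l with h | h
    · rw [h]
      have : (1 : ℝ) ≤ (nb S e).card := by exact_mod_cast hpos
      simp; linarith
    · have h8 : 2 ^ (l - 1) < (nb S e).card := by
        rcases Nat.lt_or_ge (2 ^ (l - 1)) (nb S e).card with h' | h'
        · exact h'
        · have := Nat.clog_le_of_le_pow h'
          omega
      have h9 : 2 ^ l = 2 * 2 ^ (l - 1) := by
        rw [← pow_succ']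
        congr 1
        omega
      have h10 : (2 : ℝ) ^ l = 2 * 2 ^ (l - 1) := by exact_mod_cast h9
      have h11 : (2 : ℝ) ^ (l - 1) < (nb S e).card := by exact_mod_cast h8
      linarith
  have hvd : (0 : ℝ) < vol n d := by exact_mod_cast vol_pos n d
  have hve : (0 : ℝ) < vol n e := by exact_mod_cast vol_pos n e
  have h8 : ((nb S e).card : ℝ) * vol n d ≤ 2 ^ (m + 1) * vol n e := by
    have h9 : (nb S e).card * vol n d ≤ 2 ^ (m + 1) * vol n e :=
      h2.trans (Nat.mul_le_mul_right _ h1.le)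
    exact_mod_cast h9
  have h9 : (l : ℝ) ≤ m + 2 + (Real.logb 2 (vol n e) - Real.logb 2 (vol n d)) := by
    have h10 : (2 : ℝ) ^ l ≤ 2 ^ (m + 2) * (vol n e / vol n d) := by
      have h11 : ((nb S e).card : ℝ) ≤ 2 ^ (m + 1) * (vol n e / vol n d) := by
        rw [← mul_div_assoc, le_div_iff₀ hvd]
        exact h8
      calc (2 : ℝ) ^ l ≤ 2 * (nb S e).card := h7
        _ ≤ 2 * (2 ^ (m + 1) * (vol n e / vol n d)) := by linarith
        _ = 2 ^ (m + 2) * (vol n e / vol n d) := by ring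
    have h12 := Real.logb_le_logb_of_le (b := 2) one_lt_two (by positivity) h10
    rw [Real.logb_mul (by positivity) (by positivity), Real.logb_div hve.ne' hvd.ne',
      Real.logb_pow, Real.logb_pow, Real.logb_self_eq_one one_lt_two] at h12
    push_cast at h12
    linarith
  have h10 : (K U (List.ofFn y) : ℝ) ≤ l + c * lg n := by exact_mod_cast h6
  have h11 := mul_le_mul_of_nonneg_left (lg_real n) (Nat.cast_nonneg (α := ℝ) c)
  have h12 : (1 : ℝ) ≤ Real.logb 2 (2 + n) := by
    rw [Real.le_logb_iff_rpow_le one_lt_two (by positivity)]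
    simp
  rw [hy']
  nlinarith

end Pool.Agent.H709.HB
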