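import Pool.Agent.H709.HB.Sph
import Pool.Agent.H709.HB.Grow

set_option autoImplicit false

/-! Computable lists of good centres. -/

namespace Pool.Agent.H709.HB

open Encodable Primrec Pool.Agent.H.MP_d04dff_lc Pool.Agent.Lib.helper21 Pool.Agent.Lib.helper21.KC

def cntD (L : List (List Bool)) (y : List Bool) (ρ : ℕ) : ℕ :=
  (L.filter fun c => decide (hl c y = ρ)).length

theorem cntD_prim : Primrec fun w : List (List Bool) × (List Bool × ℕ) => cntD w.1 w.2.1 w.2.2 := by
  have h1 : PrimrecRel fun (c : List Bool) (z : List Bool × ℕ) => hl c z.1 = z.2 :=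
    Primrec.eq.comp (hl_prim.comp (fst.pair (fst.comp snd))) (snd.comp snd)
  exact list_length.comp h1.listFilter

def Good (a : ℕ × ℕ) (L : List (List Bool)) : Prop :=
  L.length = 2 ^ a.2 ∧ (∀ c ∈ L, c.length = a.1) ∧ ∀ y ∈ allS a.1, ∀ ρ ∈ List.range (a.1 + 1),
    cntD L y ρ * 2 ^ a.1 ≤ 2 * a.1 * 2 ^ a.1 + 2 * 2 ^ a.2 * cntD (allS a.1) y ρ

theorem good_sig : Sig fun z : (ℕ × ℕ) × List (List Bool) => Good z.1 z.2 := by
  refine (Sig.prim (Primrec.eq.comp (list_length.comp snd) (pow2.comp (snd.comp fst)))).and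
    ((Sig.ball (R := fun (z : (ℕ × ℕ) × List (List Bool)) (c : List Bool) => c.length = z.1.1)
      (Sig.prim (Primrec.eq.comp (list_length.comp snd) (fst.comp (fst.comp fst)))) snd).and
    (Sig.ball (R := fun (z : (ℕ × ℕ) × List (List Bool)) (y : List Bool) =>
      ∀ ρ ∈ List.range (z.1.1 + 1), cntD z.2 y ρ * 2 ^ z.1.1 ≤
        2 * z.1.1 * 2 ^ z.1.1 + 2 * 2 ^ z.1.2 * cntD (allS z.1.1) y ρ)
      (Sig.ball (R := fun (z : ((ℕ × ℕ) × List (List Bool)) × List Bool) (ρ : ℕ) =>
        cntD z.1.2 z.2 ρ * 2 ^ z.1.1.1 ≤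
        2 * z.1.1.1 * 2 ^ z.1.1.1 + 2 * 2 ^ z.1.1.2 * cntD (allS z.1.1.1) z.2 ρ)
        (Sig.prim ?_) (list_range.comp (succ.comp (fst.comp (fst.comp fst)))))
      (allS_prim.comp (fst.comp fst))))
  have g : Primrec fun z : (((ℕ × ℕ) × List (List Bool)) × List Bool) × ℕ => z.1.1.1.1 :=
    fst.comp (fst.comp (fst.comp fst))
  have g' : Primrec fun z : (((ℕ × ℕ) × List (List Bool)) × List Bool) × ℕ => z.1.1.1.2 :=
    snd.comp (fst.comp (fst.comp fst))
  have gL : Primrec fun z : (((ℕ × ℕ) × List (List Bool)) × List Bool) × ℕ => z.1.1.2 :=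
    snd.comp (fst.comp fst)
  have gy : Primrec fun z : (((ℕ × ℕ) × List (List Bool)) × List Bool) × ℕ => z.1.2 :=
    snd.comp fst
  exact nat_le.comp (nat_mul.comp (cntD_prim.comp (gL.pair (gy.pair snd))) (pow2.comp g))
    (nat_add.comp (nat_mul.comp (nat_mul.comp (const 2) g) (pow2.comp g))
      (nat_mul.comp (nat_mul.comp (const 2) (pow2.comp g'))
        (cntD_prim.comp ((allS_prim.comp g).pair (gy.pair snd)))))

theorem cntD_ofFn {N n : ℕ} (c : Fin N → Fin n → Bool) (y : Fin n → Bool) (ρ : ℕ) :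
    cntD (List.ofFn fun i => List.ofFn (c i)) (List.ofFn y) ρ = mlt c y ρ := by
  have h1 : (List.ofFn fun i => List.ofFn (c i)) = (List.finRange N).map fun i => List.ofFn (c i) := by
    rw [List.ofFn_eq_map]
  unfold cntD
  rw [h1, List.filter_map, List.length_map]
  have h2 : (List.filter ((fun v => decide (hl v (List.ofFn y) = ρ)) ∘ fun i => List.ofFn (c i))
      (List.finRange N)) = (List.finRange N).filter fun i => decide (hammingDist (c i) y = ρ) := by
    refine List.filter_congr fun i _ => ?_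
    simp [Function.comp, hl_ofFn]
  rw [h2, ← List.toFinset_card_of_nodup ((List.nodup_finRange N).filter _), List.toFinset_filter,
    List.toFinset_finRange]
  simp [mlt]

theorem nodup_allS (n : ℕ) : (allS n).Nodup := by
  induction n with
  | zero => simp [allS]
  | succ n ih =>
    refine List.Nodup.append (ih.map (List.cons_injective)) (ih.map (List.cons_injective)) ?_
    intro v h1 h2
    obtain ⟨a, -, rfl⟩ := List.mem_map.1 h1
    obtain ⟨b, -, h⟩ := List.mem_map.1 h2
    simp at h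

theorem cntD_allS {n : ℕ} (y : Fin n → Bool) (ρ : ℕ) :
    cntD (allS n) (List.ofFn y) ρ = sph y ρ := by
  classical
  unfold cntD sph
  rw [← List.toFinset_card_of_nodup ((nodup_allS n).filter _),
    ← Finset.card_image_of_injective _ List.ofFn_injective]
  congr 1
  ext v
  simp only [List.mem_toFinset, List.mem_filter, mem_allS, decide_eq_true_eq, Finset.mem_image,
    Finset.mem_filter, Finset.mem_univ, true_and]
  constructor
  · rintro ⟨h1, h2⟩
    obtain ⟨w, rfl⟩ := eq_ofFn h1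
    exact ⟨w, by rwa [hl_ofFn] at h2, rfl⟩
  · rintro ⟨w, h, rfl⟩
    exact ⟨List.length_ofFn, by rwa [hl_ofFn]⟩

theorem exists_good (a : ℕ × ℕ) : ∃ L, Good a L := by
  obtain ⟨n, s⟩ := a
  obtain ⟨c, hc⟩ := exists_code n (2 ^ s)
  refine ⟨List.ofFn fun i => List.ofFn (c i), List.length_ofFn, fun v hv => ?_, fun v hv ρ hρ => ?_⟩
  · obtain ⟨i, rfl⟩ := (List.mem_ofFn' _ _).1 hv
    exact List.length_ofFn
  · obtain ⟨y, rfl⟩ := eq_ofFn (mem_allS.1 hv)
    rw [cntD_ofFn, cntD_allS]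
    exact_mod_cast hc y ρ (by have := List.mem_range.1 hρ; simpa using Nat.lt_succ_iff.1 this)

/-- Centres from a good list. -/
theorem centres {n s : ℕ} {L : List (List Bool)} (h : Good (n, s) L) :
    ∃ c : Fin (2 ^ s) → Fin n → Bool, L = List.ofFn (fun i => List.ofFn (c i)) ∧
      ∀ y : Fin n → Bool, ∀ ρ ≤ n,
        mlt c y ρ * 2 ^ n ≤ 2 * n * 2 ^ n + 2 * 2 ^ s * sph y ρ := by
  obtain ⟨h1, h2, h3⟩ := h
  have h4 : ∀ i : Fin (2 ^ s), ∃ y : Fin n → Bool, L[(i : ℕ)]'(by rw [h1]; exact i.2) = List.ofFn y :=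
    fun i => eq_ofFn (h2 _ (List.getElem_mem _))
  choose c hc using h4
  have h5 : L = List.ofFn (fun i => List.ofFn (c i)) := by
    refine List.ext_getElem (by simpa using h1) fun i hi hi' => ?_
    rw [List.getElem_ofFn]
    exact hc ⟨i, by rw [← h1]; exact hi⟩
  refine ⟨c, h5, fun y ρ hρ => ?_⟩
  have h6 := h3 (List.ofFn y) (mem_allS.2 List.length_ofFn) ρ (List.mem_range.2 (by simp; omega))
  rw [cntD_allS, h5, cntD_ofFn] at h6
  exact h6

/-- The points at distance at most `ρ` of the centres. -/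
def Cov (f : ℕ × ℕ → List (List Bool)) (a : List ℕ) (v : List Bool) : Prop :=
  v.length = a.getD 0 0 ∧ ∃ c, c ∈ f (a.getD 0 0, a.getD 1 0) ∧ hl c v ≤ a.getD 2 0

theorem cov_sig {f : ℕ × ℕ → List (List Bool)} (hf : Computable f) :
    Sig fun z : List ℕ × List Bool => Cov f z.1 z.2 := by
  have h : Sig fun z : (List ℕ × List Bool) × List (List Bool) =>
      z.1.2.length = z.1.1.getD 0 0 ∧ ∃ c, c ∈ z.2 ∧ hl c z.1.2 ≤ z.1.1.getD 2 0 := by
    refine (Sig.prim (Primrec.eq.comp (list_length.comp (snd.comp fst)) (gD (fst.comp fst) 0))).and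
      (Sig.ex (R := fun (z : (List ℕ × List Bool) × List (List Bool)) (c : List Bool) =>
        c ∈ z.2 ∧ hl c z.1.2 ≤ z.1.1.getD 2 0) ((Sig.prim ?_).and (Sig.prim ?_)))
    · exact mem_prim.comp snd (snd.comp fst)
    · exact nat_le.comp (hl_prim.comp (snd.pair (snd.comp (fst.comp fst))))
        (gD (fst.comp (fst.comp fst)) 2)
  exact Sig.ccomp (R := fun (z : List ℕ × List Bool) (L : List (List Bool)) =>
      z.2.length = z.1.getD 0 0 ∧ ∃ c, c ∈ L ∧ hl c z.2 ≤ z.1.getD 2 0) h hf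
    ((gD fst 0).pair (gD fst 1))

theorem card_ball {n : ℕ} (c : Fin n → Bool) (ρ : ℕ) :
    (Finset.univ.filter fun y : Fin n → Bool => hammingDist c y ≤ ρ).card = vol n ρ := by
  have h1 : (Finset.univ.filter fun y : Fin n → Bool => hammingDist c y ≤ ρ) = nb {c} ρ := by
    ext y; simp [nb]
  rw [h1, card_nb, vol]
  refine Finset.sum_congr rfl fun i _ => ?_
  rw [← sph_eq c i, sph]
  congr 1
  ext y
  rw [lv_spec]
  simp only [Finset.mem_singleton, exists_eq_left, forall_eq, Finset.mem_filter, Finset.mem_univ,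
    true_and]
  rw [hammingDist_comm]
  constructor
  · exact fun h => h.1
  · exact fun h => ⟨h, h.ge⟩

theorem cov_few {f : ℕ × ℕ → List (List Bool)} {n s ρ l : ℕ} {c : Fin (2 ^ s) → Fin n → Bool}
    (hc : f (n, s) = List.ofFn fun i => List.ofFn (c i)) (hl' : 2 ^ s * vol n ρ ≤ 2 ^ l) :
    ¬ Many (2 ^ l + 1) (Cov f [n, s, ρ]) := by
  classical
  rintro ⟨F, h1, h2⟩
  have h3 : F ⊆ (Finset.univ.biUnion fun i => Finset.univ.filter fun y : Fin n → Bool =>
      hammingDist (c i) y ≤ ρ).image List.ofFn := by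
    intro v hv
    obtain ⟨h4, w, h5, h6⟩ := h2 v hv
    simp only [List.getD_cons_zero, List.getD_cons_succ] at h4 h5 h6
    obtain ⟨y, rfl⟩ := eq_ofFn h4
    rw [hc] at h5
    obtain ⟨i, rfl⟩ := (List.mem_ofFn' _ _).1 h5
    rw [hl_ofFn] at h6
    refine Finset.mem_image_of_mem _ (Finset.mem_biUnion.2 ⟨i, Finset.mem_univ _, ?_⟩)
    simpa using h6
  have h4 := (Finset.card_le_card h3).trans Finset.card_image_le
  have h5 := h4.trans Finset.card_biUnion_le
  simp only [card_ball, Finset.sum_const, Finset.card_univ, Fintype.card_fin, smul_eq_mul] at h5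
  omega

theorem vol_le {n ρ : ℕ} (h : ρ ≤ n / 2) : vol n ρ ≤ (n + 1) * n.choose ρ := by
  have h1 : ∀ j i, i ≤ j → j ≤ n / 2 → n.choose i ≤ n.choose j := by
    intro j
    induction j with
    | zero => intro i hi _; rw [Nat.le_zero.1 hi]
    | succ j ih =>
      intro i hi hj
      rcases Nat.lt_or_ge j i with h | h
      · rw [show i = j + 1 by omega]
      · exact (ih i h (by omega)).trans (Nat.choose_le_succ_of_lt_half_left (by omega))
  unfold vol
  calc ∑ i ∈ Finset.range (ρ + 1), n.choose i ≤ ∑ _i ∈ Finset.range (ρ + 1), n.choose ρ :=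
        Finset.sum_le_sum fun i hi => h1 ρ i (by have := Finset.mem_range.1 hi; omega) h
    _ = (ρ + 1) * n.choose ρ := by simp
    _ ≤ (n + 1) * n.choose ρ := Nat.mul_le_mul_right _ (by omega)

theorem two_pow_le (n : ℕ) : 2 ^ n ≤ (n + 1) * n.choose (n / 2) := by
  rw [← Nat.sum_range_choose n]
  calc ∑ i ∈ Finset.range (n + 1), n.choose i ≤ ∑ _i ∈ Finset.range (n + 1), n.choose (n / 2) :=
        Finset.sum_le_sum fun i _ => Nat.choose_le_middle i n
    _ = (n + 1) * n.choose (n / 2) := by simp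

end Pool.Agent.H709.HB
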