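import Mathlib

set_option autoImplicit false

/-! The piecewise linear interpolation of the sizes of balls. -/

namespace Pool.Agent.H709.HB

open Finset

/-- `0` for `x ≤ 0`, `x` for `0 ≤ x ≤ 1`, `1` for `x ≥ 1`. -/
noncomputable def kap (x : ℝ) : ℝ := max 0 (min 1 x)

theorem kap_mono : Monotone kap := fun _ _ h => max_le_max le_rfl (min_le_min le_rfl h)

theorem kap_one {x : ℝ} (h : 1 ≤ x) : kap x = 1 := by simp [kap, h]

theorem kap_zero {x : ℝ} (h : x ≤ 0) : kap x = 0 := by
  have : min 1 x ≤ 0 := (min_le_right _ _).trans h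
  simp [kap, this]

theorem kap_cont : Continuous kap := by unfold kap; fun_prop

/-- The interpolated size of the ball of radius `x` of the cube of dimension `m`. -/
noncomputable def W (m : ℕ) (x : ℝ) : ℝ := ∑ i ∈ range (m + 1), (m.choose i : ℝ) * kap (x - i + 1)

theorem W_mono (m : ℕ) : Monotone (W m) := fun x y h =>
  sum_le_sum fun i _ => mul_le_mul_of_nonneg_left (kap_mono (by linarith)) (Nat.cast_nonneg _)

theorem W_cont (m : ℕ) : Continuous (W m) := by
  unfold W
  refine continuous_finsetSum _ fun i _ => continuous_const.mul (kap_cont.comp ?_)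
  fun_prop

/-- The sum may be extended. -/
theorem W_eq (m k : ℕ) (hk : m ≤ k) (x : ℝ) :
    W m x = ∑ i ∈ range (k + 1), (m.choose i : ℝ) * kap (x - i + 1) := by
  unfold W
  refine sum_subset (range_subset_range.2 (by omega)) fun i _ hi => ?_
  rw [Nat.choose_eq_zero_of_lt (by simpa using hi)]
  simp

theorem W_pascal (m : ℕ) (x : ℝ) : W (m + 1) x = W m x + W m (x - 1) := by
  rw [W_eq m (m + 1) (Nat.le_succ m) x, W, sum_range_succ' _ (m + 1), sum_range_succ' _ (m + 1), W]
  have h : ∀ i : ℕ, ((m + 1).choose (i + 1) : ℝ) * kap (x - (i + 1 : ℕ) + 1) =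
      (m.choose (i + 1) : ℝ) * kap (x - (i + 1 : ℕ) + 1) +
        (m.choose i : ℝ) * kap (x - 1 - i + 1) := by
    intro i
    rw [Nat.choose_succ_succ]
    push_cast
    rw [show x - ((i : ℝ) + 1) + 1 = x - 1 - i + 1 by ring]
    ring
  simp_rw [h, sum_add_distrib]
  simp only [Nat.choose_zero_right]
  ring

theorem W_nat (m r : ℕ) : W m r = ∑ i ∈ range (r + 1), (m.choose i : ℝ) := by
  rw [W_eq m (m + r) (Nat.le_add_right m r)]
  have h1 : ∀ i ∈ range (m + r + 1), (m.choose i : ℝ) * kap ((r : ℝ) - i + 1) =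
      if i < r + 1 then (m.choose i : ℝ) else 0 := by
    intro i _
    split_ifs with h
    · have : (i : ℝ) ≤ r := by exact_mod_cast Nat.lt_succ_iff.1 h
      rw [kap_one (by linarith), mul_one]
    · have : (r : ℝ) + 1 ≤ i := by exact_mod_cast not_lt.1 h
      rw [kap_zero (by linarith), mul_zero]
  rw [sum_congr rfl h1, ← sum_filter]
  refine sum_congr ?_ fun _ _ => rfl
  ext i
  simp only [mem_filter, mem_range]
  omega

theorem W_top (m : ℕ) {x : ℝ} (h : (m : ℝ) ≤ x) : W m x = 2 ^ m := by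
  have h1 : (2 : ℝ) ^ m = ∑ i ∈ range (m + 1), (m.choose i : ℝ) := by
    exact_mod_cast (Nat.sum_range_choose m).symm
  rw [h1]
  refine sum_congr rfl fun i hi => ?_
  have : (i : ℝ) ≤ m := by exact_mod_cast Nat.lt_succ_iff.1 (mem_range.1 hi)
  rw [kap_one (by linarith), mul_one]

theorem W_le (m : ℕ) (x : ℝ) : W m x ≤ 2 ^ m := by
  rw [← W_top m (le_max_left (m : ℝ) x)]
  exact W_mono m (le_max_right _ _)

/-- Strict growth below the top. -/
theorem W_strict (m : ℕ) {x y : ℝ} (hx : -1 ≤ x) (hxy : x < y) (hxm : x < m) : W m x < W m y := by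
  -- the term `i = ⌊x⌋ + 1`
  have h1 : 0 ≤ ⌊x⌋ + 1 := by
    have : (-1 : ℤ) ≤ ⌊x⌋ := Int.le_floor.2 (by simpa using hx)
    omega
  obtain ⟨j, hj⟩ := Int.eq_ofNat_of_zero_le h1
  have hj' : (j : ℝ) = (⌊x⌋ : ℝ) + 1 := by
    have : ((j : ℤ) : ℝ) = ((⌊x⌋ + 1 : ℤ) : ℝ) := by rw [hj]
    push_cast at this
    exact this
  have hf1 := Int.floor_le x
  have hf2 := Int.lt_floor_add_one x
  have hjm : j ≤ m := by
    have : (j : ℝ) < m + 1 := by linarith
    have : j < m + 1 := by exact_mod_cast this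
    omega
  refine sum_lt_sum (fun i _ => mul_le_mul_of_nonneg_left (kap_mono (by linarith))
    (Nat.cast_nonneg _)) ⟨j, mem_range.2 (by omega), ?_⟩
  have h2 : (0 : ℝ) < m.choose j := by exact_mod_cast Nat.choose_pos hjm
  refine mul_lt_mul_of_pos_left ?_ h2
  have h3 : 0 ≤ x - j + 1 := by linarith
  have h4 : x - j + 1 < 1 := by linarith
  have h5 : kap (x - j + 1) = x - j + 1 := by
    rw [kap, min_eq_right h4.le, max_eq_right h3]
  rw [h5]
  rcases le_total (y - j + 1) 1 with h | h
  · rw [kap, min_eq_right h, max_eq_right (by linarith)]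
    linarith
  · rw [kap_one h]
    exact h4

/-- Shifts: for `x ≥ -1`. -/
theorem W_shift (m t : ℕ) {x : ℝ} (hx : -1 ≤ x) :
    W m (x + t) = ∑ i ∈ range t, (m.choose i : ℝ) +
      ∑ i ∈ range (m + 1), (m.choose (i + t) : ℝ) * kap (x - i + 1) := by
  rw [W_eq m (m + t) (Nat.le_add_right m t), show m + t + 1 = t + (m + 1) by ring, sum_range_add]
  congr 1
  · refine sum_congr rfl fun i hi => ?_
    have : (i : ℝ) + 1 ≤ t := by exact_mod_cast mem_range.1 hi
    rw [kap_one (by linarith), mul_one]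
  · refine sum_congr rfl fun i _ => ?_
    rw [Nat.add_comm t i]
    push_cast
    congr 2
    ring

theorem choose_cross (m t : ℕ) {i j : ℕ} (h : i ≤ j) :
    m.choose (j + t) * m.choose i ≤ m.choose (i + t) * m.choose j := by
  induction t with
  | zero => simp [Nat.mul_comm]
  | succ t ih =>
    have h1 := Nat.choose_succ_right_eq m (j + t)
    have h2 := Nat.choose_succ_right_eq m (i + t)
    have h3 : (j + t + 1) * (i + t + 1) * (m.choose (j + (t + 1)) * m.choose i) ≤
        (j + t + 1) * (i + t + 1) * (m.choose (i + (t + 1)) * m.choose j) := by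
      have h4 : m - (j + t) ≤ m - (i + t) := by omega
      have h5 : (i + t + 1) ≤ (j + t + 1) := by omega
      calc (j + t + 1) * (i + t + 1) * (m.choose (j + (t + 1)) * m.choose i)
          = (i + t + 1) * ((m.choose (j + t + 1) * (j + t + 1)) * m.choose i) := by
            rw [← Nat.add_assoc j t 1]; ring
        _ = (i + t + 1) * ((m.choose (j + t) * (m - (j + t))) * m.choose i) := by rw [h1]
        _ = (i + t + 1) * (m - (j + t)) * (m.choose (j + t) * m.choose i) := by ring
        _ ≤ (j + t + 1) * (m - (i + t)) * (m.choose (i + t) * m.choose j) :=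
            Nat.mul_le_mul (Nat.mul_le_mul h5 h4) ih
        _ = (j + t + 1) * ((m.choose (i + t) * (m - (i + t))) * m.choose j) := by ring
        _ = (j + t + 1) * ((m.choose (i + t + 1) * (i + t + 1)) * m.choose j) := by rw [h2]
        _ = (j + t + 1) * (i + t + 1) * (m.choose (i + (t + 1)) * m.choose j) := by
            rw [← Nat.add_assoc i t 1]; ring
    exact Nat.le_of_mul_le_mul_left h3 (by positivity)

/-- The function `C(m,j) W(x + t) - C(m,j+t) W(x)`. -/
noncomputable def Hf (m t j : ℕ) (x : ℝ) : ℝ :=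
  (m.choose j : ℝ) * W m (x + t) - (m.choose (j + t) : ℝ) * W m x

theorem Hf_eq (m t j : ℕ) {x : ℝ} (hx : -1 ≤ x) :
    Hf m t j x = (m.choose j : ℝ) * ∑ i ∈ range t, (m.choose i : ℝ) +
      ∑ i ∈ range (m + 1), ((m.choose (i + t) : ℝ) * m.choose j -
        (m.choose (j + t) : ℝ) * m.choose i) * kap (x - i + 1) := by
  rw [Hf, W_shift m t hx, W, mul_add, add_sub_assoc]
  congr 1
  rw [mul_sum, mul_sum, ← sum_sub_distrib]
  refine sum_congr rfl fun i _ => ?_
  ring

theorem Hf_inc (m t j : ℕ) {x y : ℝ} (hx : -1 ≤ x) (hxy : x ≤ y) (hy : y ≤ j) :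
    Hf m t j x ≤ Hf m t j y := by
  rw [Hf_eq m t j hx, Hf_eq m t j (hx.trans hxy)]
  refine add_le_add_right (sum_le_sum fun i _ => ?_) _
  rcases le_total i j with h | h
  · refine mul_le_mul_of_nonneg_left (kap_mono (by linarith)) ?_
    have := choose_cross m t h
    have h1 : (m.choose (j + t) : ℝ) * m.choose i ≤ (m.choose (i + t) : ℝ) * m.choose j := by
      exact_mod_cast this
    linarith
  · rcases h.eq_or_lt with h | h
    · subst h; simp
    · have h1 : (j : ℝ) + 1 ≤ i := by exact_mod_cast h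
      rw [kap_zero (by linarith), kap_zero (by linarith)]

theorem Hf_dec (m t j : ℕ) {x y : ℝ} (hx : (j : ℝ) - 1 ≤ x) (hxy : x ≤ y) :
    Hf m t j y ≤ Hf m t j x := by
  have hj : (0 : ℝ) ≤ j := Nat.cast_nonneg j
  rw [Hf_eq m t j (by linarith), Hf_eq m t j (by linarith)]
  refine add_le_add_right (sum_le_sum fun i _ => ?_) _
  rcases le_total j i with h | h
  · refine mul_le_mul_of_nonpos_left (kap_mono (by linarith)) ?_
    have := choose_cross m t h
    have h1 : (m.choose (i + t) : ℝ) * m.choose j ≤ (m.choose (j + t) : ℝ) * m.choose i := by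
      exact_mod_cast this
    linarith
  · rcases h.eq_or_lt with h | h
    · subst h; simp
    · have h1 : (i : ℝ) + 1 ≤ j := by exact_mod_cast h
      rw [kap_one (by linarith), kap_one (by linarith)]

/-- The key inequality for the induction. -/
theorem key (m t : ℕ) {α β γ : ℝ} (hβ : 0 ≤ β) (hβα : β ≤ α) (hαm : α ≤ m) (hγ : 0 ≤ γ)
    (hαβ : α - 1 < β) (h : W m γ + W m (γ - 1) ≤ W m α + W m β) :
    W m (γ + t) + W m (γ - 1 + t) ≤ W m (α + t) + W m (β + t) := by
  rcases le_or_gt γ α with hc | hc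
  · have h1 := W_mono m (show γ + t ≤ α + t by linarith)
    have h2 := W_mono m (show γ - 1 + t ≤ β + t by linarith)
    linarith
  · -- `γ > α`
    rcases le_or_gt (m : ℝ) β with hm | hm
    · have ht : (0 : ℝ) ≤ t := Nat.cast_nonneg t
      have h1 := W_le m (γ + t)
      have h2 := W_le m (γ - 1 + t)
      have h3 := W_top m (show (m : ℝ) ≤ α + t by linarith)
      have h4 := W_top m (show (m : ℝ) ≤ β + t by linarith)
      linarith
    have h1 : γ - 1 ≤ β := by
      by_contra hcon
      push Not at hcon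
      have h2 := W_mono m hc.le
      have h3 := W_strict m (show -1 ≤ β by linarith) hcon hm
      linarith
    obtain ⟨j, hj1, hj2, hjm⟩ : ∃ j : ℕ, β ≤ j ∧ (j : ℝ) - 1 ≤ β ∧ j ≤ m :=
      ⟨⌈β⌉₊, Nat.le_ceil β, by have := Nat.ceil_lt_add_one hβ; linarith, Nat.ceil_le.2 hm.le⟩
    have hp : (0 : ℝ) < m.choose j := by exact_mod_cast Nat.choose_pos hjm
    have h2 := Hf_inc m t j (show -1 ≤ γ - 1 by linarith) h1 hj1
    have h3 := Hf_dec m t j (show (j : ℝ) - 1 ≤ α by linarith) hc.le
    unfold Hf at h2 h3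
    have h4 : (0 : ℝ) ≤ m.choose (j + t) := Nat.cast_nonneg _
    have h5 : (m.choose (j + t) : ℝ) * (W m γ + W m (γ - 1)) ≤
        (m.choose (j + t) : ℝ) * (W m α + W m β) := mul_le_mul_of_nonneg_left h h4
    have h6 : (m.choose j : ℝ) * (W m (γ + t) + W m (γ - 1 + t)) ≤
        (m.choose j : ℝ) * (W m (α + t) + W m (β + t)) := by
      nlinarith
    exact le_of_mul_le_mul_left h6 hp

end Pool.Agent.H709.HB
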