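import Pool.Agent.H709.HB.Lym
import Pool.Agent.H709.HB.Wfun

set_option autoImplicit false

/-! Harper's theorem for balls, with a proof by induction on the dimension. -/

namespace Pool.Agent.H709.HB

open Finset

variable {n : ℕ}

/-- The slice of `A`: the first coordinate is `b`. -/
def sl (A : Finset (Fin (n + 1) → Bool)) (b : Bool) : Finset (Fin n → Bool) :=
  univ.filter fun x => (Fin.cons b x : Fin (n + 1) → Bool) ∈ A

theorem mem_sl {A : Finset (Fin (n + 1) → Bool)} {b : Bool} {x : Fin n → Bool} :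
    x ∈ sl A b ↔ (Fin.cons b x : Fin (n + 1) → Bool) ∈ A := by simp [sl]

theorem card_sl (A : Finset (Fin (n + 1) → Bool)) (b : Bool) :
    A.card = (sl A b).card + (sl A (!b)).card := by
  classical
  have h : ∀ b : Bool, (A.filter fun z => z 0 = b).card = (sl A b).card := by
    intro b
    have h1 : (A.filter fun z => z 0 = b) =
        (sl A b).image fun x => (Fin.cons b x : Fin (n + 1) → Bool) := by
      ext z
      simp only [mem_filter, mem_image, mem_sl]
      constructor
      · rintro ⟨h1, rfl⟩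
        exact ⟨Fin.tail z, by rwa [Fin.cons_self_tail], Fin.cons_self_tail z⟩
      · rintro ⟨x, h1, rfl⟩
        exact ⟨h1, rfl⟩
    rw [h1, card_image_of_injective _ (Fin.cons_right_injective _)]
  have h2 := card_filter_add_card_filter_not (s := A) (fun z => z 0 = b)
  have h3 : (A.filter fun z => ¬ z 0 = b) = A.filter fun z => z 0 = !b := by
    refine filter_congr fun z _ => ?_
    cases z 0 <;> cases b <;> simp
  rw [h3, h b, h (!b)] at h2
  exact h2.symm

theorem dist_cons (a b : Bool) (x y : Fin n → Bool) :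
    hammingDist (Fin.cons a x : Fin (n + 1) → Bool) (Fin.cons b y) =
      (if a = b then 0 else 1) + hammingDist x y := by
  unfold hammingDist
  rw [card_filter, card_filter, Fin.sum_univ_succ]
  simp only [Fin.cons_zero, Fin.cons_succ]
  congr 1
  by_cases h : a = b <;> simp [h]

theorem sl_nb (A : Finset (Fin (n + 1) → Bool)) (b : Bool) (t : ℕ) :
    nb (sl A b) t ⊆ sl (nb A t) b := by
  intro y hy
  obtain ⟨x, h1, h2⟩ := mem_nb.1 hy
  refine mem_sl.2 (mem_nb.2 ⟨_, mem_sl.1 h1, ?_⟩)
  rw [dist_cons]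
  simpa using h2

theorem sl_nb' (A : Finset (Fin (n + 1) → Bool)) (b : Bool) (t : ℕ) :
    nb (sl A b) t ⊆ sl (nb A (t + 1)) (!b) := by
  intro y hy
  obtain ⟨x, h1, h2⟩ := mem_nb.1 hy
  refine mem_sl.2 (mem_nb.2 ⟨_, mem_sl.1 h1, ?_⟩)
  rw [dist_cons]
  split_ifs <;> omega

theorem W_zero (m : ℕ) : W m 0 = 1 := by
  have := W_nat m 0
  simpa using this

theorem W_nonneg (m : ℕ) (x : ℝ) : 0 ≤ W m x :=
  sum_nonneg fun _ _ => mul_nonneg (Nat.cast_nonneg _) (le_max_left _ _)

theorem W_inv {m a : ℕ} (h1 : 1 ≤ a) (h2 : a ≤ 2 ^ m) : ∃ α : ℝ, 0 ≤ α ∧ α ≤ m ∧ W m α = a := by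
  have h := intermediate_value_Icc (Nat.cast_nonneg (α := ℝ) m) (W_cont m).continuousOn
  have h3 : (a : ℝ) ∈ Set.Icc (W m 0) (W m m) := by
    rw [W_zero, W_top m le_rfl]
    exact ⟨by exact_mod_cast h1, by exact_mod_cast h2⟩
  obtain ⟨α, ⟨h4, h5⟩, h6⟩ := h h3
  exact ⟨α, h4, h5, h6⟩

theorem card_le_pow (A : Finset (Fin n → Bool)) : A.card ≤ 2 ^ n := by
  refine (card_le_univ _).trans ?_
  simp

/-- **Harper's theorem** (interpolated). -/
theorem harper : ∀ (n t : ℕ) (A : Finset (Fin n → Bool)), A.Nonempty → ∀ α : ℝ, 0 ≤ α →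
    W n α ≤ A.card → W n (α + t) ≤ (nb A t).card := by
  intro n
  induction n with
  | zero =>
    intro t A hA α _ _
    have h1 : A ⊆ nb A t := fun x hx => mem_nb.2 ⟨x, hx, by simp⟩
    have h2 : 1 ≤ (nb A t).card := card_pos.2 (hA.mono h1)
    have h3 := W_le 0 (α + t)
    have h4 : (1 : ℝ) ≤ (nb A t).card := by exact_mod_cast h2
    simpa using h3.trans (by simpa using h4)
  | succ n ih =>
    intro t A hA α hα h
    rcases Nat.eq_zero_or_pos t with rfl | ht
    · have h1 : A ⊆ nb A 0 := fun x hx => mem_nb.2 ⟨x, hx, by simp⟩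
      have h2 : (A.card : ℝ) ≤ (nb A 0).card := by exact_mod_cast card_le_card h1
      simpa using h.trans h2
    obtain ⟨s, rfl⟩ : ∃ s, t = s + 1 := ⟨t - 1, by omega⟩
    obtain ⟨b, hb⟩ : ∃ b : Bool, (sl A (!b)).card ≤ (sl A b).card := by
      rcases le_total (sl A true).card (sl A false).card with h1 | h1
      · exact ⟨false, h1⟩
      · exact ⟨true, h1⟩
    have hc := card_sl A b
    have hc' := card_sl (nb A (s + 1)) b
    have hA' := card_pos.2 hA
    have ha : 1 ≤ (sl A b).card := by omega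
    obtain ⟨α', h0, hn, hW⟩ := W_inv ha (card_le_pow _)
    have hne : (sl A b).Nonempty := card_pos.1 (by omega)
    have i1 := ih (s + 1) (sl A b) hne α' h0 hW.le
    have j1 : ((nb (sl A b) (s + 1)).card : ℝ) ≤ (sl (nb A (s + 1)) b).card := by
      exact_mod_cast card_le_card (sl_nb A b (s + 1))
    have hcR : (A.card : ℝ) = (sl A b).card + (sl A (!b)).card := by exact_mod_cast hc
    have hcR' : ((nb A (s + 1)).card : ℝ) =
        (sl (nb A (s + 1)) b).card + (sl (nb A (s + 1)) (!b)).card := by exact_mod_cast hc'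
    have hP := W_pascal n α
    have hPt := W_pascal n (α + (s + 1 : ℕ))
    -- the case in which the second slice is small
    have small : ((sl A (!b)).card : ℝ) ≤ W n (α' - 1) →
        W (n + 1) (α + (s + 1 : ℕ)) ≤ (nb A (s + 1)).card := by
      intro hs
      have i2 := ih s (sl A b) hne α' h0 hW.le
      have j2 : ((nb (sl A b) s).card : ℝ) ≤ (sl (nb A (s + 1)) (!b)).card := by
        exact_mod_cast card_le_card (sl_nb' A b s)
      have hP' := W_pascal n α'
      have hPt' := W_pascal n (α' + (s + 1 : ℕ))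
      have e : α' + ((s + 1 : ℕ) : ℝ) - 1 = α' + s := by push_cast; ring
      rw [e] at hPt'
      have h1 : α ≤ α' := by
        by_contra hcon
        push Not at hcon
        have h2 := W_strict (n + 1) (show -1 ≤ α' by linarith) hcon (by push_cast; linarith)
        linarith
      have h2 := W_mono (n + 1) (show α + ((s + 1 : ℕ) : ℝ) ≤ α' + (s + 1 : ℕ) by linarith)
      linarith
    rcases Nat.eq_zero_or_pos (sl A (!b)).card with h1 | h1
    · exact small (by rw [h1]; simpa using W_nonneg n _)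
    obtain ⟨β, k0, kn, kW⟩ := W_inv h1 (card_le_pow _)
    rcases le_or_gt β (α' - 1) with hβ | hβ
    · exact small (by rw [← kW]; exact W_mono n hβ)
    have hne' : (sl A (!b)).Nonempty := card_pos.1 h1
    have i2 := ih (s + 1) (sl A (!b)) hne' β k0 kW.le
    have j2 : ((nb (sl A (!b)) (s + 1)).card : ℝ) ≤ (sl (nb A (s + 1)) (!b)).card := by
      exact_mod_cast card_le_card (sl_nb A (!b) (s + 1))
    have hbR : ((sl A (!b)).card : ℝ) ≤ (sl A b).card := by exact_mod_cast hb
    have hβα : β ≤ α' := by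
      by_contra hcon
      push Not at hcon
      have h2 := W_strict n (show -1 ≤ α' by linarith) hcon (by linarith)
      linarith
    have hk := key n (s + 1) k0 hβα hn hα hβ (by linarith)
    have e : α + ((s + 1 : ℕ) : ℝ) - 1 = α - 1 + (s + 1 : ℕ) := by ring
    rw [e] at hPt
    linarith

/-- Harper's theorem for balls. -/
theorem harper_nat {n r t : ℕ} {A : Finset (Fin n → Bool)} (h : vol n r ≤ A.card) :
    vol n (r + t) ≤ (nb A t).card := by
  have hA : A.Nonempty := card_pos.1 ((vol_pos n r).trans_le h)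
  have e : ∀ r : ℕ, W n r = vol n r := by
    intro r
    rw [W_nat, vol]
    push_cast
    rfl
  have h1 := harper n t A hA r (Nat.cast_nonneg r) (by rw [e]; exact_mod_cast h)
  rw [← Nat.cast_add, e] at h1
  exact_mod_cast h1

end Pool.Agent.H709.HB
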