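import Pool.Agent.H709.HB.Comp

set_option autoImplicit false

/-! Points whose profile is that of a union of balls about random centres. -/

namespace Pool.Agent.H709.HB

open Pool.Agent.H.MP_d04dff_lc Pool.Agent.Lib.helper21.KC

variable {U : List Bool →. List Bool}

theorem clog_real {k : ℕ} (hk : 0 < k) : ((Nat.clog 2 k : ℕ) : ℝ) ≤ Real.logb 2 k + 1 := by
  have h7 : (2 : ℝ) ^ Nat.clog 2 k ≤ 2 * k := by
    rcases Nat.eq_zero_or_pos (Nat.clog 2 k) with h | h
    · rw [h]
      have : (1 : ℝ) ≤ k := by exact_mod_cast hk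
      simp; linarith
    · have h8 : 2 ^ (Nat.clog 2 k - 1) < k := by
        rcases Nat.lt_or_ge (2 ^ (Nat.clog 2 k - 1)) k with h' | h'
        · exact h'
        · have := Nat.clog_le_of_le_pow h'
          omega
      have h9 : 2 ^ Nat.clog 2 k = 2 * 2 ^ (Nat.clog 2 k - 1) := by
        rw [← pow_succ']
        congr 1
        omega
      have h10 : (2 : ℝ) ^ Nat.clog 2 k = 2 * 2 ^ (Nat.clog 2 k - 1) := by exact_mod_cast h9
      have h11 : (2 : ℝ) ^ (Nat.clog 2 k - 1) < k := by exact_mod_cast h8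
      linarith
  have hk' : (0 : ℝ) < k := by exact_mod_cast hk
  have h12 := Real.logb_le_logb_of_le (b := 2) one_lt_two (by positivity) h7
  rw [Real.logb_mul (by positivity) hk'.ne', Real.logb_pow, Real.logb_self_eq_one one_lt_two] at h12
  linarith

theorem vol_le_pow (n ρ : ℕ) : vol n ρ ≤ 2 ^ n := by
  rw [← card_ball (n := n) (fun _ => false) ρ]
  refine (Finset.card_le_univ _).trans ?_
  simp

theorem maxC_mono {n d e : ℕ} (x : Fin n → Bool) (h : d ≤ e) : maxC U x d ≤ maxC U x e := by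
  obtain ⟨y, h1, h2⟩ := exists_maxC (U := U) x d
  rw [h2]
  exact le_maxC (h1.trans h)

/-- The number `μ` of the proof. -/
def mu (n s ρ : ℕ) : ℕ := min (2 ^ s * n.choose ρ) (2 ^ n)

theorem mu_pos {n s ρ : ℕ} (h : ρ ≤ n) : 0 < mu n s ρ :=
  lt_min (Nat.mul_pos (by positivity) (Nat.choose_pos h)) (by positivity)

theorem target_le {n s ρ : ℕ} (h : ρ ≤ n / 2) :
    min (n : ℝ) (s + Real.logb 2 (vol n ρ)) ≤ Real.logb 2 (2 + n) + Real.logb 2 (mu n s ρ) := by
  have h0 : (0 : ℝ) < mu n s ρ := by exact_mod_cast mu_pos (show ρ ≤ n by omega)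
  have h1 : (0 : ℝ) < 2 + (n : ℝ) := by positivity
  rw [← Real.logb_mul h1.ne' h0.ne']
  rcases le_total (2 ^ s * n.choose ρ) (2 ^ n) with hc | hc
  · have h2 : mu n s ρ = 2 ^ s * n.choose ρ := min_eq_left hc
    refine (min_le_right _ _).trans ?_
    have h3 : (0 : ℝ) < vol n ρ := by exact_mod_cast vol_pos n ρ
    have h4 : (s : ℝ) + Real.logb 2 (vol n ρ) = Real.logb 2 (2 ^ s * vol n ρ) := by
      rw [Real.logb_mul (by positivity) h3.ne', Real.logb_pow, Real.logb_self_eq_one one_lt_two]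
      ring
    rw [h4]
    refine Real.logb_le_logb_of_le one_lt_two (by positivity) ?_
    rw [h2]
    have h5 : 2 ^ s * vol n ρ ≤ (2 + n) * (2 ^ s * n.choose ρ) := by
      calc 2 ^ s * vol n ρ ≤ 2 ^ s * ((n + 1) * n.choose ρ) := Nat.mul_le_mul_left _ (vol_le h)
        _ = (n + 1) * (2 ^ s * n.choose ρ) := by ring
        _ ≤ _ := Nat.mul_le_mul_right _ (by omega)
    exact_mod_cast h5
  · have h2 : mu n s ρ = 2 ^ n := min_eq_right hc
    refine (min_le_left _ _).trans ?_
    have h4 : (n : ℝ) = Real.logb 2 (2 ^ n) := by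
      rw [Real.logb_pow, Real.logb_self_eq_one one_lt_two, mul_one]
    conv_lhs => rw [h4]
    refine Real.logb_le_logb_of_le one_lt_two (by positivity) ?_
    rw [h2]
    push_cast
    have : (0 : ℝ) < 2 ^ n := by positivity
    nlinarith

theorem target_top {n s : ℕ} :
    (n : ℝ) ≤ Real.logb 2 (2 + n) + Real.logb 2 (mu n s (n / 2)) := by
  have h0 : (0 : ℝ) < mu n s (n / 2) := by exact_mod_cast mu_pos (Nat.div_le_self n 2)
  have h1 : (0 : ℝ) < 2 + (n : ℝ) := by positivity
  rw [← Real.logb_mul h1.ne' h0.ne']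
  have h4 : (n : ℝ) = Real.logb 2 (2 ^ n) := by
    rw [Real.logb_pow, Real.logb_self_eq_one one_lt_two, mul_one]
  conv_lhs => rw [h4]
  refine Real.logb_le_logb_of_le one_lt_two (by positivity) ?_
  have h5 : 2 ^ n ≤ (2 + n) * mu n s (n / 2) := by
    rcases le_total (2 ^ s * n.choose (n / 2)) (2 ^ n) with hc | hc
    · rw [mu, min_eq_left hc]
      calc 2 ^ n ≤ (n + 1) * n.choose (n / 2) := two_pow_le n
        _ ≤ (2 + n) * (1 * n.choose (n / 2)) := by
            rw [one_mul]; exact Nat.mul_le_mul_right _ (by omega)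
        _ ≤ (2 + n) * (2 ^ s * n.choose (n / 2)) :=
            Nat.mul_le_mul_left _ (Nat.mul_le_mul_right _ Nat.one_le_two_pow)
    · rw [mu, min_eq_right hc]
      exact Nat.le_mul_of_pos_left _ (by omega)
  exact_mod_cast h5

/-- The level for the lower bound. -/
def lev (n s ρ : ℕ) : ℕ := Nat.log 2 (mu n s ρ / ((2 * n + 2) * (n + 1)))

theorem lev_real {n s ρ : ℕ} (h : ρ ≤ n) :
    Real.logb 2 (mu n s ρ) ≤ lev n s ρ + 2 + 2 * Real.logb 2 (2 + n) := by
  have h1 : mu n s ρ < (mu n s ρ / ((2 * n + 2) * (n + 1)) + 1) * ((2 * n + 2) * (n + 1)) := by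
    rw [Nat.mul_comm]
    exact Nat.lt_mul_div_succ _ (by positivity)
  have h2 : mu n s ρ / ((2 * n + 2) * (n + 1)) + 1 ≤ 2 ^ (lev n s ρ + 1) :=
    Nat.lt_pow_succ_log_self one_lt_two _
  have h3 : mu n s ρ ≤ 2 ^ (lev n s ρ + 2) * (2 + n) ^ 2 := by
    calc mu n s ρ ≤ 2 ^ (lev n s ρ + 1) * ((2 * n + 2) * (n + 1)) :=
          h1.le.trans (Nat.mul_le_mul_right _ h2)
      _ ≤ 2 ^ (lev n s ρ + 1) * (2 * (2 + n) ^ 2) := Nat.mul_le_mul_left _ (by nlinarith)
      _ = 2 ^ (lev n s ρ + 2) * (2 + n) ^ 2 := by ring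
  have h4 : (mu n s ρ : ℝ) ≤ 2 ^ (lev n s ρ + 2) * (2 + n) ^ 2 := by exact_mod_cast h3
  have h0 : (0 : ℝ) < mu n s ρ := by exact_mod_cast mu_pos h
  have h5 := Real.logb_le_logb_of_le (b := 2) one_lt_two h0 h4
  rw [Real.logb_mul (by positivity) (by positivity), Real.logb_pow, Real.logb_pow,
    Real.logb_self_eq_one one_lt_two] at h5
  push_cast at h5
  linarith

theorem card_lt_lev (hU : Opt U) (n a : ℕ) :
    (Finset.univ.filter fun y : Fin n → Bool => K U (List.ofFn y) < a).card < 2 ^ a := by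
  rcases Nat.eq_zero_or_pos a with rfl | ha
  · simp
  · obtain ⟨m, rfl⟩ : ∃ m, a = m + 1 := ⟨a - 1, by omega⟩
    exact card_low hU n m 0 _ fun y hy => by
      have := (Finset.mem_filter.1 hy).2
      omega

theorem realize (hU : Opt U) : ∃ c : ℝ, ∀ n s r : ℕ, s ≤ n → 2 * r ≤ n →
    ∃ x : Fin n → Bool, ∀ d ≤ n,
      |(maxC U x d : ℝ) - min (n : ℝ) (s + Real.logb 2 (vol n (r + d)))| ≤
        c * Real.logb 2 (2 + n) := by
  classical
  obtain ⟨f, hf, hf'⟩ := good_sig.choice exists_good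
  obtain ⟨b, hb⟩ := hU.base
  obtain ⟨c, hc⟩ := hU.enumL (cov_sig hf) 3 2
  refine ⟨2 * c + b + 5, fun n s r hs hr => ?_⟩
  obtain ⟨cc, hcc, hmul⟩ := centres (hf' (n, s))
  let A : ℕ → Finset (Fin n → Bool) := fun d =>
    Finset.univ.filter fun y : Fin n → Bool => K U (List.ofFn y) < lev n s (r + d)
  have hA : ∀ d ≤ n / 2 - r, (A d).card * (2 * n * 2 ^ n + 2 * 2 ^ s * n.choose (r + d)) *
      (n + 1) < 2 ^ s * n.choose (r + d) * 2 ^ n := by
    intro d hd
    have hrd : r + d ≤ n := by omega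
    have h1 : (A d).card < 2 ^ lev n s (r + d) := card_lt_lev hU n _
    have h2 : (A d).card * ((2 * n + 2) * (n + 1)) < mu n s (r + d) := by
      rcases Nat.eq_zero_or_pos (mu n s (r + d) / ((2 * n + 2) * (n + 1))) with h | h
      · have h3 : (A d).card = 0 := by
          rw [lev, h] at h1
          simpa using h1
        rw [h3, Nat.zero_mul]
        exact mu_pos hrd
      · have h3 : 2 ^ lev n s (r + d) ≤ mu n s (r + d) / ((2 * n + 2) * (n + 1)) :=
          Nat.pow_log_le_self 2 (by omega)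
        have h4 : (A d).card < mu n s (r + d) / ((2 * n + 2) * (n + 1)) := by omega
        calc (A d).card * ((2 * n + 2) * (n + 1))
            < mu n s (r + d) / ((2 * n + 2) * (n + 1)) * ((2 * n + 2) * (n + 1)) :=
              Nat.mul_lt_mul_of_pos_right h4 (by positivity)
          _ ≤ mu n s (r + d) := Nat.div_mul_le_self _ _
    have h3 : mu n s (r + d) * max (2 ^ s * n.choose (r + d)) (2 ^ n) =
        2 ^ s * n.choose (r + d) * 2 ^ n := min_mul_max _ _
    have h4 : 2 * n * 2 ^ n + 2 * 2 ^ s * n.choose (r + d) ≤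
        (2 * n + 2) * max (2 ^ s * n.choose (r + d)) (2 ^ n) := by
      have h5 := le_max_left (2 ^ s * n.choose (r + d)) (2 ^ n)
      have h6 := le_max_right (2 ^ s * n.choose (r + d)) (2 ^ n)
      have h7 := Nat.mul_le_mul_left (2 * n) h6
      calc 2 * n * 2 ^ n + 2 * 2 ^ s * n.choose (r + d)
          = 2 * n * 2 ^ n + 2 * (2 ^ s * n.choose (r + d)) := by ring
        _ ≤ 2 * n * max (2 ^ s * n.choose (r + d)) (2 ^ n) +
            2 * max (2 ^ s * n.choose (r + d)) (2 ^ n) :=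
            Nat.add_le_add h7 (Nat.mul_le_mul_left 2 h5)
        _ = _ := by ring
    have hmx : 0 < max (2 ^ s * n.choose (r + d)) (2 ^ n) := lt_max_of_lt_right (by positivity)
    calc (A d).card * (2 * n * 2 ^ n + 2 * 2 ^ s * n.choose (r + d)) * (n + 1)
        ≤ (A d).card * ((2 * n + 2) * max (2 ^ s * n.choose (r + d)) (2 ^ n)) * (n + 1) :=
          Nat.mul_le_mul_right _ (Nat.mul_le_mul_left _ h4)
      _ = ((A d).card * ((2 * n + 2) * (n + 1))) * max (2 ^ s * n.choose (r + d)) (2 ^ n) := by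
          ring
      _ < mu n s (r + d) * max (2 ^ s * n.choose (r + d)) (2 ^ n) :=
          Nat.mul_lt_mul_of_pos_right h2 hmx
      _ = _ := h3
  obtain ⟨i, x, hx, hy⟩ := exists_point (r := r) (D := n / 2 - r) (N := 2 ^ s) (by omega) cc hmul A hA
  have h12 : (1 : ℝ) ≤ Real.logb 2 (2 + n) := by
    rw [Real.le_logb_iff_rpow_le one_lt_two (by positivity)]
    simp
  refine ⟨x, fun d hd => ?_⟩
  rw [abs_le]
  constructor
  · obtain ⟨D', h1, h2, h3⟩ : ∃ D' ≤ n / 2 - r, D' ≤ d ∧
        min (n : ℝ) (s + Real.logb 2 (vol n (r + d))) ≤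
          Real.logb 2 (2 + n) + Real.logb 2 (mu n s (r + D')) := by
      rcases Nat.lt_or_ge (n / 2 - r) d with h | h
      · refine ⟨n / 2 - r, le_rfl, h.le, ?_⟩
        rw [show r + (n / 2 - r) = n / 2 by omega]
        exact (min_le_left _ _).trans target_top
      · exact ⟨d, h, le_rfl, target_le (by omega)⟩
    obtain ⟨y, h4, h5⟩ := hy D' h1
    have h6 : lev n s (r + D') ≤ K U (List.ofFn y) := by
      by_contra h
      exact h5 (Finset.mem_filter.2 ⟨Finset.mem_univ _, by omega⟩)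
    have h7 : lev n s (r + D') ≤ maxC U x d := h6.trans (le_maxC (h4.trans h2))
    have h8 : (lev n s (r + D') : ℝ) ≤ maxC U x d := by exact_mod_cast h7
    have h9 := lev_real (n := n) (s := s) (ρ := r + D') (by omega)
    have h10 : (0 : ℝ) ≤ c := Nat.cast_nonneg c
    have h11 : (0 : ℝ) ≤ b := Nat.cast_nonneg b
    nlinarith
  · obtain ⟨y, h1, h2⟩ := exists_maxC (U := U) x d
    have h3 : hammingDist (cc i) y ≤ r + d := by
      have := hammingDist_triangle (cc i) x y
      omega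
    have hk : 0 < 2 ^ s * vol n (r + d) := Nat.mul_pos (by positivity) (vol_pos _ _)
    set l := Nat.clog 2 (2 ^ s * vol n (r + d)) with hl'
    have h4 : 2 ^ s * vol n (r + d) ≤ 2 ^ l := Nat.le_pow_clog one_lt_two _
    have h5 : l ≤ 2 * (n + 1) := by
      refine Nat.clog_le_of_le_pow ?_
      calc 2 ^ s * vol n (r + d) ≤ 2 ^ n * 2 ^ n :=
            Nat.mul_le_mul (Nat.pow_le_pow_right (by norm_num) hs) (vol_le_pow _ _)
        _ = 2 ^ (2 * n) := by ring
        _ ≤ 2 ^ (2 * (n + 1)) := Nat.pow_le_pow_right (by norm_num) (by omega)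
    have h6 := hc n [n, s, r + d] (List.ofFn y) l (by simp) (by
        intro z hz
        simp only [List.mem_cons, List.not_mem_nil, or_false] at hz
        rcases hz with rfl | rfl | rfl <;> omega) h5
      ⟨by simp, List.ofFn (cc i), by
        simp only [List.getD_cons_zero, List.getD_cons_succ]
        rw [hcc]
        exact (List.mem_ofFn' _ _).2 ⟨i, rfl⟩, by
        simp only [List.getD_cons_zero, List.getD_cons_succ]
        rw [hl_ofFn]
        exact h3⟩ (cov_few hcc h4)
    have h7 : (K U (List.ofFn y) : ℝ) ≤ l + c * lg n := by exact_mod_cast h6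
    have h8 : (K U (List.ofFn y) : ℝ) ≤ n + b := by
      have := hb (List.ofFn y)
      rw [List.length_ofFn] at this
      exact_mod_cast this
    have h9 := clog_real hk
    have hv : (0 : ℝ) < vol n (r + d) := by exact_mod_cast vol_pos n (r + d)
    push_cast at h9
    rw [Real.logb_mul (by positivity) hv.ne', Real.logb_pow, Real.logb_self_eq_one one_lt_two] at h9
    have h11 := mul_le_mul_of_nonneg_left (lg_real n) (Nat.cast_nonneg (α := ℝ) c)
    have h10 : (0 : ℝ) ≤ c := Nat.cast_nonneg c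
    have h10' : (0 : ℝ) ≤ b := Nat.cast_nonneg b
    have h13 : (K U (List.ofFn y) : ℝ) - (2 * c + b + 5) * Real.logb 2 (2 + n) ≤
        min (n : ℝ) (s + Real.logb 2 (vol n (r + d))) := by
      refine le_min ?_ ?_
      · nlinarith
      · nlinarith
    rw [h2]
    linarith

end Pool.Agent.H709.HB
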