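import Pool.Agent.H709.HB.Harper
import Pool.Agent.H709.HB.Realize

set_option autoImplicit false

/-! The lower bound for the growth, from Harper's theorem, and facts on the sizes of balls. -/

namespace Pool.Agent.H709.HB

open Pool.Agent.H.MP_d04dff_lc Pool.Agent.Lib.helper21.KC

variable {U : List Bool →. List Bool}

theorem one_le_L (n : ℕ) : (1 : ℝ) ≤ Real.logb 2 (2 + n) := by
  rw [Real.le_logb_iff_rpow_le one_lt_two (by positivity)]
  simp

theorem lower (hU : Opt U) : ∃ c : ℝ, 0 ≤ c ∧ ∀ (n : ℕ) (x : Fin n → Bool) (d e r : ℕ), d ≤ e →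
    e ≤ n → Real.logb 2 (vol n r) + c * Real.logb 2 (2 + n) ≤ maxC U x d →
    Real.logb 2 (vol n (r + (e - d))) ≤ maxC U x e + 1 := by
  classical
  obtain ⟨b, hb⟩ := hU.base
  obtain ⟨c, hc⟩ := hU.enumL (near_sig hU) 4 (b + 1)
  refine ⟨2 * c + 1, by positivity, fun n x d e r hde he h => ?_⟩
  obtain ⟨y, hy, hy'⟩ := exists_maxC (U := U) x d
  set m := maxC U x e with hm
  have hmn : m ≤ n + b := by
    obtain ⟨w, -, hw⟩ := exists_maxC (U := U) x e
    rw [hm, hw]
    simpa using hb (List.ofFn w)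
  set S := lowSet U n m (e - d) with hS
  have hyS : y ∈ S := mem_lowSet.2 fun z hz => le_maxC (by
    have := hammingDist_triangle x y z
    omega)
  have hy0 : y ∈ nb S 0 := mem_nb.2 ⟨y, hyS, by simp⟩
  have h0 : nb S 0 = S := by
    ext z
    rw [mem_nb]
    constructor
    · rintro ⟨w, h1, h2⟩
      have : w = z := by simpa using h2
      exact this ▸ h1
    · exact fun hz => ⟨z, hz, by simp⟩
  have hpos : 0 < (nb S 0).card := Finset.card_pos.2 ⟨y, hy0⟩
  set l := Nat.clog 2 (nb S 0).card with hl'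
  have h5 : l ≤ n := Nat.clog_le_of_le_pow (card_le_pow _)
  have h6 := hc n [n, m, e - d, 0] (List.ofFn y) l (by simp) (by
      intro z hz
      simp only [List.mem_cons, List.not_mem_nil, or_false] at hz
      have h7 : n + 1 ≤ (b + 1) * (n + 1) := Nat.le_mul_of_pos_left _ (Nat.succ_pos b)
      have h8 : n + b ≤ (b + 1) * (n + 1) := by nlinarith
      rcases hz with rfl | rfl | rfl | rfl <;> omega) (by nlinarith)
    (near_iff.2 ⟨y, hy0, rfl⟩) (not_many (Nat.le_pow_clog one_lt_two _))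
  have h7 := clog_real hpos
  rw [← hl'] at h7
  have h10 : (K U (List.ofFn y) : ℝ) ≤ l + c * lg n := by exact_mod_cast h6
  have h11 := mul_le_mul_of_nonneg_left (lg_real n) (Nat.cast_nonneg (α := ℝ) c)
  have h12 := one_le_L n
  rw [hy'] at h
  have h13 : Real.logb 2 (vol n r) ≤ Real.logb 2 (nb S 0).card := by nlinarith
  have hv : (0 : ℝ) < vol n r := by exact_mod_cast vol_pos n r
  have hp' : (0 : ℝ) < (nb S 0).card := by exact_mod_cast hpos
  have h14 : (vol n r : ℝ) ≤ (nb S 0).card := (Real.logb_le_logb one_lt_two hv hp').1 h13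
  have h15 : vol n r ≤ S.card := by
    rw [← h0]
    exact_mod_cast h14
  have h16 := harper_nat (t := e - d) h15
  have h17 : (nb S (e - d)).card < 2 ^ (m + 1) := by
    refine card_low hU n m 0 _ fun w hw => ?_
    obtain ⟨z, hz, hz'⟩ := mem_nb.1 hw
    exact mem_lowSet.1 hz w hz'
  have h18 : (vol n (r + (e - d)) : ℝ) ≤ 2 ^ (m + 1) := by exact_mod_cast (h16.trans h17.le)
  have hv' : (0 : ℝ) < vol n (r + (e - d)) := by exact_mod_cast vol_pos n _
  have h19 := Real.logb_le_logb_of_le (b := 2) one_lt_two hv' h18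
  rw [Real.logb_pow, Real.logb_self_eq_one one_lt_two] at h19
  push_cast at h19
  linarith

/-- `log V`. -/
noncomputable def lv2 (n r : ℕ) : ℝ := Real.logb 2 (vol n r)

theorem vol_mono {n a b : ℕ} (h : a ≤ b) : vol n a ≤ vol n b :=
  Finset.sum_le_sum_of_subset (Finset.range_subset_range.2 (by omega))

theorem lv2_mono {n a b : ℕ} (h : a ≤ b) : lv2 n a ≤ lv2 n b :=
  Real.logb_le_logb_of_le one_lt_two (by exact_mod_cast vol_pos n a) (by exact_mod_cast vol_mono h)

theorem lv2_zero (n : ℕ) : lv2 n 0 = 0 := by simp [lv2, vol]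

theorem lv2_nonneg (n r : ℕ) : 0 ≤ lv2 n r := by
  rw [← lv2_zero n]
  exact lv2_mono (Nat.zero_le r)

theorem lv2_le (n r : ℕ) : lv2 n r ≤ n := by
  have h : (vol n r : ℝ) ≤ 2 ^ n := by exact_mod_cast vol_le_pow n r
  have h1 := Real.logb_le_logb_of_le (b := 2) one_lt_two (by exact_mod_cast vol_pos n r) h
  rw [Real.logb_pow, Real.logb_self_eq_one one_lt_two, mul_one] at h1
  exact h1

/-- `V(t + a) V(b) ≤ V(t + b) V(a)` for `b ≤ a`. -/
theorem vol_cross {n t a b : ℕ} (h : b ≤ a) : vol n (t + a) * vol n b ≤ vol n (t + b) * vol n a := by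
  classical
  let z : Fin n → Bool := fun _ => false
  have h1 := nb_vol (nb {z} t) h
  have hcard : ∀ k, (nb {z} k).card = vol n k := by
    intro k
    rw [← card_ball z k]
    congr 1
    ext y; simp [nb]
  have h2 : vol n (t + a) ≤ (nb (nb {z} t) a).card := harper_nat (hcard t).ge
  have h3 : (nb (nb {z} t) b).card ≤ vol n (t + b) := by
    rw [← hcard (t + b)]
    refine Finset.card_le_card fun y hy => ?_
    obtain ⟨w, h4, h5⟩ := mem_nb.1 hy
    obtain ⟨z', h6, h7⟩ := mem_nb.1 h4
    refine mem_nb.2 ⟨z', h6, ?_⟩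
    have := hammingDist_triangle z' w y
    omega
  exact (Nat.mul_le_mul_right _ h2).trans (h1.trans (Nat.mul_le_mul_right _ h3))

theorem lv2_cross {n t a b : ℕ} (h : b ≤ a) : lv2 n (t + a) + lv2 n b ≤ lv2 n (t + b) + lv2 n a := by
  have hp : ∀ k, (0 : ℝ) < vol n k := fun k => by exact_mod_cast vol_pos n k
  unfold lv2
  rw [← Real.logb_mul (hp _).ne' (hp _).ne', ← Real.logb_mul (hp _).ne' (hp _).ne']
  refine Real.logb_le_logb_of_le one_lt_two (mul_pos (hp _) (hp _)) ?_
  exact_mod_cast vol_cross h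

theorem lv2_succ (n r : ℕ) : lv2 n (r + 1) ≤ lv2 n r + Real.logb 2 (2 + n) := by
  have h := lv2_cross (n := n) (t := 1) (Nat.zero_le r)
  rw [Nat.add_comm 1 r, lv2_zero] at h
  have h1 : lv2 n (1 + 0) ≤ Real.logb 2 (2 + n) := by
    refine Real.logb_le_logb_of_le one_lt_two (by exact_mod_cast vol_pos n _) ?_
    have : vol n (1 + 0) = 1 + n := by simp [vol, Finset.sum_range_succ]
    rw [this]
    push_cast
    linarith
  linarith

theorem lv2_half (n : ℕ) : (n : ℝ) ≤ lv2 n (n / 2) + Real.logb 2 (2 + n) := by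
  have h1 : 2 ^ n ≤ vol n (n / 2) * (2 + n) := by
    calc 2 ^ n ≤ (n + 1) * n.choose (n / 2) := two_pow_le n
      _ ≤ (n + 1) * vol n (n / 2) := Nat.mul_le_mul_left _ (by
          unfold vol
          exact Finset.single_le_sum (f := fun i => n.choose i) (fun _ _ => Nat.zero_le _)
            (Finset.mem_range.2 (Nat.lt_succ_self _)))
      _ ≤ vol n (n / 2) * (2 + n) := by
          rw [Nat.mul_comm]
          exact Nat.mul_le_mul_left _ (by omega)
  have h2 : (2 : ℝ) ^ n ≤ vol n (n / 2) * (2 + n) := by exact_mod_cast h1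
  have hp : (0 : ℝ) < vol n (n / 2) := by exact_mod_cast vol_pos n _
  have h3 := Real.logb_le_logb_of_le (b := 2) one_lt_two (by positivity) h2
  rw [Real.logb_pow, Real.logb_self_eq_one one_lt_two, mul_one,
    Real.logb_mul hp.ne' (by positivity)] at h3
  exact h3

/-- Every ball of radius `d` contains points of complexity at least `log V(d) - 1`. -/
theorem ball_lower (hU : Opt U) {n : ℕ} (x : Fin n → Bool) (d : ℕ) :
    lv2 n d ≤ maxC U x d + 1 := by
  have h1 := card_low hU n (maxC U x d) 0 (Finset.univ.filter fun y => hammingDist x y ≤ d)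
    fun y hy => le_maxC (by simpa using hy)
  rw [card_ball] at h1
  have h2 : (vol n d : ℝ) ≤ 2 ^ (maxC U x d + 1) := by exact_mod_cast h1.le
  have h3 := Real.logb_le_logb_of_le (b := 2) one_lt_two (by exact_mod_cast vol_pos n d) h2
  rw [Real.logb_pow, Real.logb_self_eq_one one_lt_two] at h3
  push_cast at h3
  unfold lv2
  linarith

end Pool.Agent.H709.HB
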