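import Mathlib

set_option autoImplicit false

/-! Sizes of the neighbourhoods of a set in the Hamming cube. -/

namespace Pool.Agent.H709.HB

open Finset

variable {n : ℕ}

/-- The points at distance at most `d` from `S`. -/
def nb (S : Finset (Fin n → Bool)) (d : ℕ) : Finset (Fin n → Bool) :=
  univ.filter fun y => ∃ x ∈ S, hammingDist x y ≤ d

/-- The points at distance exactly `d` from `S`. -/
def lv (S : Finset (Fin n → Bool)) : ℕ → Finset (Fin n → Bool)
  | 0 => nb S 0
  | d + 1 => nb S (d + 1) \ nb S d

/-- The number of points in a ball of radius `d`. -/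
def vol (n d : ℕ) : ℕ := ∑ i ∈ range (d + 1), n.choose i

def fl (y : Fin n → Bool) (i : Fin n) : Fin n → Bool := Function.update y i (!y i)

theorem fl_fl (y : Fin n → Bool) (i : Fin n) : fl (fl y i) i = y := by
  simp [fl]

theorem fl_inj (y : Fin n → Bool) : Function.Injective (fl y) := by
  intro i j h
  by_contra hij
  have h1 := congrFun h i
  simp [fl, Function.update_of_ne hij] at h1

theorem dist_ne {x y : Fin n → Bool} {i : Fin n} (h : x i ≠ y i) :
    hammingDist x (fl y i) + 1 = hammingDist x y := by
  have e : (univ.filter fun j => x j ≠ fl y i j) = (univ.filter fun j => x j ≠ y j).erase i := by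
    ext j
    simp only [mem_filter, mem_univ, true_and, mem_erase]
    by_cases hj : j = i
    · subst hj
      simp only [fl, Function.update_self, ne_eq, not_true_eq_false, false_and, iff_false,
        not_not]
      revert h
      cases x j <;> cases y j <;> simp
    · simp [fl, hj]
  have h1 : i ∈ univ.filter fun j => x j ≠ y j := by simp [h]
  show (univ.filter fun j => x j ≠ fl y i j).card + 1 = (univ.filter fun j => x j ≠ y j).card
  rw [e]
  exact card_erase_add_one h1

theorem dist_eq {x y : Fin n → Bool} {i : Fin n} (h : x i = y i) :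
    hammingDist x (fl y i) = hammingDist x y + 1 := by
  have h1 : x i ≠ fl y i i := by
    simp only [fl, Function.update_self, h]
    cases y i <;> simp
  have := dist_ne h1
  rw [fl_fl] at this
  exact this.symm

theorem mem_nb {S : Finset (Fin n → Bool)} {d : ℕ} {y : Fin n → Bool} :
    y ∈ nb S d ↔ ∃ x ∈ S, hammingDist x y ≤ d := by simp [nb]

theorem nb_mono (S : Finset (Fin n → Bool)) {d e : ℕ} (h : d ≤ e) : nb S d ⊆ nb S e := by
  intro y hy
  obtain ⟨x, h1, h2⟩ := mem_nb.1 hy
  exact mem_nb.2 ⟨x, h1, h2.trans h⟩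

theorem lv_spec {S : Finset (Fin n → Bool)} {d : ℕ} {y : Fin n → Bool} :
    y ∈ lv S d ↔ (∃ x ∈ S, hammingDist x y = d) ∧ ∀ x ∈ S, d ≤ hammingDist x y := by
  cases d with
  | zero => simp [lv, mem_nb]
  | succ d =>
    simp only [lv, mem_sdiff, mem_nb, not_exists, not_and, not_le]
    constructor
    · rintro ⟨⟨x, h1, h2⟩, h3⟩
      exact ⟨⟨x, h1, by have := h3 x h1; omega⟩, fun x hx => h3 x hx⟩
    · rintro ⟨⟨x, h1, h2⟩, h3⟩
      exact ⟨⟨x, h1, h2.le⟩, fun x hx => h3 x hx⟩

theorem lv_step (S : Finset (Fin n → Bool)) (d : ℕ) :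
    (lv S (d + 1)).card * (d + 1) ≤ (lv S d).card * (n - d) := by
  classical
  refine card_mul_le_card_mul (fun y z => ∃ i, z = fl y i) (fun y hy => ?_) (fun z hz => ?_)
  · obtain ⟨⟨x, h1, h2⟩, h3⟩ := lv_spec.1 hy
    have h4 : ((univ.filter fun j => x j ≠ y j).image (fl y)) ⊆
        (lv S d).bipartiteAbove (fun y z => ∃ i, z = fl y i) y := by
      intro z hz
      obtain ⟨i, hi, rfl⟩ := mem_image.1 hz
      have hi' : x i ≠ y i := by simpa using hi
      have h5 := dist_ne hi'
      refine mem_filter.2 ⟨lv_spec.2 ⟨⟨x, h1, by omega⟩, fun x' hx' => ?_⟩, i, rfl⟩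
      have h6 := h3 x' hx'
      rcases eq_or_ne (x' i) (y i) with h | h
      · have := dist_eq h; omega
      · have := dist_ne h; omega
    have h5 := card_le_card h4
    rw [card_image_of_injective _ (fl_inj y)] at h5
    have h6 : (univ.filter fun j => x j ≠ y j).card = d + 1 := h2
    omega
  · obtain ⟨⟨x, h1, h2⟩, h3⟩ := lv_spec.1 hz
    have h4 : (lv S (d + 1)).bipartiteBelow (fun y z => ∃ i, z = fl y i) z ⊆
        ((univ.filter fun j => ¬ x j ≠ z j).image (fl z)) := by
      intro y hy
      obtain ⟨hy1, i, hi⟩ := mem_filter.1 hy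
      have hy2 : y = fl z i := by rw [hi, fl_fl]
      obtain ⟨-, h5⟩ := lv_spec.1 hy1
      refine mem_image.2 ⟨i, ?_, hy2.symm⟩
      simp only [mem_filter, mem_univ, true_and, not_not]
      by_contra h
      have h6 := dist_ne h
      have h7 := h5 x h1
      rw [hy2] at h7
      omega
    have h5 := (card_le_card h4).trans card_image_le
    have h6 : (univ.filter fun j => x j ≠ z j).card = d := h2
    have h7 := card_filter_add_card_filter_not (s := (univ : Finset (Fin n))) (fun j => x j ≠ z j)
    simp only [card_univ, Fintype.card_fin] at h7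
    omega

theorem lv_choose_step (S : Finset (Fin n → Bool)) (d : ℕ) :
    (lv S (d + 1)).card * n.choose d ≤ (lv S d).card * n.choose (d + 1) := by
  have h1 := lv_step S d
  have h2 := Nat.choose_succ_right_eq n d
  have h3 : (d + 1) * ((lv S (d + 1)).card * n.choose d) ≤
      (d + 1) * ((lv S d).card * n.choose (d + 1)) := by
    calc (d + 1) * ((lv S (d + 1)).card * n.choose d)
        = ((lv S (d + 1)).card * (d + 1)) * n.choose d := by ring
      _ ≤ ((lv S d).card * (n - d)) * n.choose d := Nat.mul_le_mul_right _ h1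
      _ = (lv S d).card * (n.choose d * (n - d)) := by ring
      _ = (lv S d).card * (n.choose (d + 1) * (d + 1)) := by rw [h2]
      _ = (d + 1) * ((lv S d).card * n.choose (d + 1)) := by ring
  exact Nat.le_of_mul_le_mul_left h3 (Nat.succ_pos d)

theorem lv_zero_of (S : Finset (Fin n → Bool)) {d : ℕ} (h : n < d) : (lv S d).card = 0 := by
  obtain ⟨e, rfl⟩ : ∃ e, d = e + 1 := ⟨d - 1, by omega⟩
  have h1 := lv_step S e
  have h2 : n - e = 0 := by omega
  rw [h2, Nat.mul_zero] at h1
  by_contra h3
  have : 0 < (lv S (e + 1)).card * (e + 1) := Nat.mul_pos (Nat.pos_of_ne_zero h3) (Nat.succ_pos e)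
  omega

theorem lv_choose (S : Finset (Fin n → Bool)) {i j : ℕ} (h : i ≤ j) :
    (lv S j).card * n.choose i ≤ (lv S i).card * n.choose j := by
  induction h with
  | refl => exact le_rfl
  | @step j _ ih =>
    rcases Nat.lt_or_ge n j with hj | hj
    · rw [lv_zero_of S (by omega : n < j + 1)]; simp
    · have h1 := lv_choose_step S j
      have h2 : 0 < n.choose j := Nat.choose_pos hj
      refine Nat.le_of_mul_le_mul_left (c := n.choose j) ?_ h2
      calc n.choose j * ((lv S (j + 1)).card * n.choose i)
          = ((lv S (j + 1)).card * n.choose j) * n.choose i := by ring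
        _ ≤ ((lv S j).card * n.choose (j + 1)) * n.choose i := Nat.mul_le_mul_right _ h1
        _ = ((lv S j).card * n.choose i) * n.choose (j + 1) := by ring
        _ ≤ ((lv S i).card * n.choose j) * n.choose (j + 1) := Nat.mul_le_mul_right _ ih
        _ = n.choose j * ((lv S i).card * n.choose (j + 1)) := by ring

theorem card_nb (S : Finset (Fin n → Bool)) (d : ℕ) :
    (nb S d).card = ∑ i ∈ range (d + 1), (lv S i).card := by
  induction d with
  | zero => simp [lv]
  | succ d ih =>
    rw [sum_range_succ, ← ih]
    have h := nb_mono S (Nat.le_succ d)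
    have h1 : (lv S (d + 1)).card = (nb S (d + 1)).card - (nb S d).card := by
      rw [lv, card_sdiff_of_subset h]
    have h2 := card_le_card h
    simp only [Nat.succ_eq_add_one] at h2
    omega

theorem vol_pos (n d : ℕ) : 0 < vol n d := by
  unfold vol
  refine Finset.sum_pos' (fun i _ => Nat.zero_le _) ⟨0, by simp, by simp⟩

theorem nb_vol_step (S : Finset (Fin n → Bool)) (d : ℕ) :
    (nb S (d + 1)).card * vol n d ≤ (nb S d).card * vol n (d + 1) := by
  rw [card_nb S (d + 1), card_nb S d, sum_range_succ]
  have h1 : vol n (d + 1) = vol n d + n.choose (d + 1) := by simp [vol, sum_range_succ]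
  rw [h1, Nat.add_mul, Nat.mul_add]
  refine Nat.add_le_add_left ?_ _
  unfold vol
  rw [mul_sum, sum_mul]
  exact sum_le_sum fun i hi => lv_choose S (by have := mem_range.1 hi; omega)

/-- The proportion of the size of a neighbourhood to the size of a ball decreases. -/
theorem nb_vol (S : Finset (Fin n → Bool)) {d e : ℕ} (h : d ≤ e) :
    (nb S e).card * vol n d ≤ (nb S d).card * vol n e := by
  induction h with
  | refl => exact le_rfl
  | @step e _ ih =>
    have h1 := nb_vol_step S e
    refine Nat.le_of_mul_le_mul_left (c := vol n e) ?_ (vol_pos n e)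
    calc vol n e * ((nb S (e + 1)).card * vol n d)
        = ((nb S (e + 1)).card * vol n e) * vol n d := by ring
      _ ≤ ((nb S e).card * vol n (e + 1)) * vol n d := Nat.mul_le_mul_right _ h1
      _ = ((nb S e).card * vol n d) * vol n (e + 1) := by ring
      _ ≤ ((nb S d).card * vol n e) * vol n (e + 1) := Nat.mul_le_mul_right _ ih
      _ = vol n e * ((nb S d).card * vol n (e + 1)) := by ring

end Pool.Agent.H709.HB
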