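import Pool.Agent.H709.HB.Lym
import Pool.Graph.R_pool_sql_team_39128cda.Lib.helper21_.Clone2

set_option autoImplicit false

/-! Complexities in Hamming balls: the upper bound for the growth. -/

namespace Pool.Agent.H709.HB

open Encodable Primrec Pool.Agent.H.MP_d04dff_lc Pool.Agent.Lib.helper21.KC

/-- The maximal complexity of the points of the Hamming ball. -/
noncomputable def maxC (U : List Bool →. List Bool) {n : ℕ} (x : Fin n → Bool) (d : ℕ) : ℕ :=
  (Finset.univ.filter fun y => hammingDist x y ≤ d).sup fun y => K U (List.ofFn y)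

def hl (z v : List Bool) : ℕ :=
  ((List.range z.length).filter fun i => decide (z[i]? ≠ v[i]?)).length

theorem hl_ofFn {n : ℕ} (x y : Fin n → Bool) : hl (List.ofFn x) (List.ofFn y) = hammingDist x y := by
  have h1 : List.range n = (List.finRange n).map Fin.val := by
    rw [List.map_coe_finRange_eq_range]
  unfold hl
  rw [List.length_ofFn, h1, List.filter_map, List.length_map]
  have h2 : (List.filter ((fun i => decide ((List.ofFn x)[i]? ≠ (List.ofFn y)[i]?)) ∘ Fin.val)
      (List.finRange n)) = (List.finRange n).filter fun i => decide (x i ≠ y i) := by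
    refine List.filter_congr fun i _ => ?_
    simp [Function.comp]
  rw [h2, ← List.toFinset_card_of_nodup ((List.nodup_finRange n).filter _), List.toFinset_filter,
    List.toFinset_finRange]
  simp [hammingDist]

theorem hl_prim : Primrec fun z : List Bool × List Bool => hl z.1 z.2 := by
  have h1 : PrimrecRel fun (i : ℕ) (z : List Bool × List Bool) => z.1[i]? ≠ z.2[i]? :=
    ((Primrec.eq.comp (list_getElem?.comp (fst.comp snd) fst)
      (list_getElem?.comp (snd.comp snd) fst)).not)
  exact list_length.comp (h1.listFilter.comp (list_range.comp (list_length.comp fst)) .id)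

def allS : ℕ → List (List Bool)
  | 0 => [[]]
  | n + 1 => (allS n).map (List.cons false) ++ (allS n).map (List.cons true)

theorem mem_allS {n : ℕ} {v : List Bool} : v ∈ allS n ↔ v.length = n := by
  induction n generalizing v with
  | zero => simp [allS]
  | succ n ih =>
    rcases v with _ | ⟨b, v⟩
    · simp [allS]
    · cases b <;> simp [allS, ih]

theorem allS_prim : Primrec allS := by
  have h : Primrec (Nat.rec (motive := fun _ => List (List Bool)) [[]]
      fun _ L => L.map (List.cons false) ++ L.map (List.cons true)) :=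
    nat_rec₁ [[]] (list_append.comp (list_map snd (list_cons.comp (const false) snd).to₂)
      (list_map snd (list_cons.comp (const true) snd).to₂)).to₂
  refine h.of_eq fun n => ?_
  induction n with
  | zero => rfl
  | succ n ih => simp only [allS, ← ih]

variable {U : List Bool →. List Bool}

/-- All points at distance at most `d` of `z` have complexity at most `m`. -/
def Low (U : List Bool →. List Bool) (n m d : ℕ) (z : List Bool) : Prop :=
  z.length = n ∧ ∀ y ∈ allS n, ¬ hl z y ≤ d ∨ K U y ≤ m

theorem low_sig (hU : Opt U) {α : Type} [Primcodable α] {n m d : α → ℕ} {z : α → List Bool}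
    (hn : Primrec n) (hm : Primrec m) (hd : Primrec d) (hz : Primrec z) :
    Sig fun a => Low U (n a) (m a) (d a) (z a) := by
  refine (Sig.prim (Primrec.eq.comp (list_length.comp hz) hn)).and
    (Sig.ball (R := fun a y => ¬ hl (z a) y ≤ d a ∨ K U y ≤ m a) ?_ (allS_prim.comp hn))
  refine (Sig.prim ?_).or (hU.sig snd (hm.comp fst))
  exact (nat_le.comp (hl_prim.comp ((hz.comp fst).pair snd)) (hd.comp fst)).not

/-- The points at distance at most `e` of a point in `Low`. -/
def Near (U : List Bool →. List Bool) (a : List ℕ) (v : List Bool) : Prop :=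
  ∃ z, Low U (a.getD 0 0) (a.getD 1 0) (a.getD 2 0) z ∧ v.length = a.getD 0 0 ∧
    hl z v ≤ a.getD 3 0

theorem near_sig (hU : Opt U) : Sig fun z : List ℕ × List Bool => Near U z.1 z.2 := by
  refine Sig.ex (R := fun (z : List ℕ × List Bool) w => Low U (z.1.getD 0 0) (z.1.getD 1 0)
    (z.1.getD 2 0) w ∧ z.2.length = z.1.getD 0 0 ∧ hl w z.2 ≤ z.1.getD 3 0) ?_
  have g : Primrec fun z : (List ℕ × List Bool) × List Bool => z.1.1 := fst.comp fst
  refine (low_sig hU (gD g 0) (gD g 1) (gD g 2) snd).and ((Sig.prim ?_).and (Sig.prim ?_))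
  · exact Primrec.eq.comp (list_length.comp (snd.comp fst)) (gD g 0)
  · exact nat_le.comp (hl_prim.comp (snd.pair (snd.comp fst))) (gD g 3)

end Pool.Agent.H709.HB
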