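import Pool.Agent.H709.HB.Lower

set_option autoImplicit false

/-! The pairs of values `(M_x(d), M_x(e))` that occur for two radii. -/

namespace Pool.Agent.H709.HB

open Pool.Agent.H.MP_d04dff_lc Pool.Agent.Lib.helper21.KC

variable {U : List Bool →. List Bool}

/-- The conditions on a pair `(u, v)` of values at the radii `d ≤ e`, up to the error `t`. Here
`lv2 n r` is the logarithm of the number `V(r)` of the points of a ball of radius `r`. -/
structure Adm (n d e : ℕ) (t u v : ℝ) : Prop where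
  /-- `log V(d) ≤ u` -/
  ball_d : lv2 n d ≤ u + t
  /-- `log V(e) ≤ v` -/
  ball_e : lv2 n e ≤ v + t
  /-- `u ≤ n` -/
  top_d : u ≤ n + t
  /-- `v ≤ n` -/
  top_e : v ≤ n + t
  /-- `v - u ≤ log V(e) - log V(d)` -/
  upper : v - u ≤ lv2 n e - lv2 n d + t
  /-- `log V(r) ≤ u` implies `log V(r + (e - d)) ≤ v` -/
  lower : ∀ r : ℕ, lv2 n r + t ≤ u → lv2 n (r + (e - d)) ≤ v + t

theorem Adm.mono {n d e : ℕ} {t t' u v : ℝ} (h : Adm n d e t u v) (htt : t ≤ t') :
    Adm n d e t' u v :=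
  ⟨by linarith [h.ball_d], by linarith [h.ball_e], by linarith [h.top_d], by linarith [h.top_e],
    by linarith [h.upper], fun r hr => by linarith [h.lower r (by linarith)]⟩

theorem adm_of (hU : Opt U) : ∃ c : ℝ, ∀ (n : ℕ) (x : Fin n → Bool) (d e : ℕ), d ≤ e → e ≤ n →
    Adm n d e (c * Real.logb 2 (2 + n)) (maxC U x d) (maxC U x e) := by
  obtain ⟨b, hb⟩ := hU.base
  obtain ⟨c₁, hc₁⟩ := grow hU
  obtain ⟨c₂, hc₂0, hc₂⟩ := lower hU
  refine ⟨|c₁| + c₂ + b + 1, fun n x d e hde he => ?_⟩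
  have hL := one_le_L n
  have hL0 : (0 : ℝ) ≤ Real.logb 2 (2 + n) := by linarith
  have h1 : c₁ * Real.logb 2 (2 + n) ≤ |c₁| * Real.logb 2 (2 + n) :=
    mul_le_mul_of_nonneg_right (le_abs_self _) hL0
  have h2 : 0 ≤ |c₁| * Real.logb 2 (2 + n) := mul_nonneg (abs_nonneg _) hL0
  have h3 : 0 ≤ c₂ * Real.logb 2 (2 + n) := mul_nonneg hc₂0 hL0
  have h4 : (b : ℝ) ≤ b * Real.logb 2 (2 + n) := le_mul_of_one_le_right (Nat.cast_nonneg _) hL
  have hb0 : (0 : ℝ) ≤ b := Nat.cast_nonneg _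
  have htop : ∀ k, (maxC U x k : ℝ) ≤ n + b := by
    intro k
    obtain ⟨w, -, hw⟩ := exists_maxC (U := U) x k
    have : maxC U x k ≤ n + b := by rw [hw]; simpa using hb (List.ofFn w)
    exact_mod_cast this
  have hexp : (|c₁| + c₂ + b + 1) * Real.logb 2 (2 + n) = |c₁| * Real.logb 2 (2 + n) +
      c₂ * Real.logb 2 (2 + n) + b * Real.logb 2 (2 + n) + Real.logb 2 (2 + n) := by ring
  rw [hexp]
  refine ⟨?_, ?_, ?_, ?_, ?_, ?_⟩
  · linarith [ball_lower hU x d]
  · linarith [ball_lower hU x e]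
  · linarith [htop d]
  · linarith [htop e]
  · have := hc₁ n x d e hde he
    unfold lv2
    linarith
  · intro r hr
    have := hc₂ n x d e r hde he (by unfold lv2 at hr; linarith)
    unfold lv2
    linarith

theorem exists_last (P : ℕ → Prop) (h0 : P 0) (n : ℕ) :
    ∃ R ≤ n, P R ∧ (R = n ∨ ¬ P (R + 1)) := by
  induction n with
  | zero => exact ⟨0, le_rfl, h0, Or.inl rfl⟩
  | succ n ih =>
    obtain ⟨R, h1, h2, h3⟩ := ih
    rcases h3 with rfl | h3
    · by_cases h : P (R + 1)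
      · exact ⟨R + 1, le_rfl, h, Or.inl rfl⟩
      · exact ⟨R, Nat.le_succ R, h2, Or.inr h⟩
    · exact ⟨R, h1.trans (Nat.le_succ n), h2, Or.inr h3⟩

theorem exists_params {n d e : ℕ} (hde : d ≤ e) {t u v : ℝ} (ht : 0 ≤ t) (h : Adm n d e t u v) :
    ∃ s r : ℕ, s ≤ n ∧ 2 * r ≤ n ∧
      |min (n : ℝ) (s + lv2 n (r + d)) - u| ≤ 5 * t + 3 * Real.logb 2 (2 + n) ∧
      |min (n : ℝ) (s + lv2 n (r + e)) - v| ≤ 5 * t + 3 * Real.logb 2 (2 + n) := by
  have hL := one_le_L n
  have hsucc : ∀ r, lv2 n (r + 1) ≤ lv2 n r + Real.logb 2 (2 + n) := fun r => lv2_succ n r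
  have hhalf : (n : ℝ) ≤ lv2 n (n / 2) + Real.logb 2 (2 + n) := lv2_half n
  obtain ⟨L, hLL⟩ : ∃ L, L = Real.logb 2 (2 + (n : ℝ)) := ⟨_, rfl⟩
  rw [← hLL] at hL hhalf ⊢
  simp only [← hLL] at hsucc
  obtain ⟨R, hRn, hR, hRmax⟩ := exists_last (fun r => lv2 n (r + d) ≤ u + t)
    (by simpa using h.ball_d) n
  have h1 := h.top_d
  have h2 := h.top_e
  have hHR : max u (lv2 n (R + d)) + lv2 n (R + e) - lv2 n (R + d) ≤ v + 3 * t + L := by
    have hm : max u (lv2 n (R + d)) ≤ u + t := max_le (by linarith) hR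
    rcases lt_or_ge u t with hut | hut
    · have h3 := lv2_cross (n := n) (t := e - d) (Nat.zero_le (R + d))
      rw [lv2_zero, show e - d + (R + d) = R + e by omega] at h3
      have h4 : lv2 n (e - d + 0) ≤ lv2 n e := lv2_mono (by omega)
      have h5 := h.ball_e
      linarith
    · obtain ⟨r', hr'n, hr', hr'max⟩ := exists_last (fun r => lv2 n r + t ≤ u)
        (by rw [lv2_zero]; linarith) n
      have h3 : r' ≤ R + d := by
        rcases hRmax with rfl | hRm
        · omega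
        · by_contra hcon
          have h4 : lv2 n (R + 1 + d) ≤ lv2 n r' := lv2_mono (by omega)
          have h5 := not_le.1 hRm
          linarith
      have h4 : u ≤ lv2 n r' + t + L := by
        rcases hr'max with rfl | hrm
        · have h5 : lv2 r' (r' / 2) ≤ lv2 r' r' := lv2_mono (Nat.div_le_self _ _)
          linarith
        · have h5 := not_le.1 hrm
          have h6 := hsucc r'
          linarith
      have h5 := lv2_cross (n := n) (t := e - d) h3
      rw [show e - d + (R + d) = R + e by omega, Nat.add_comm (e - d) r'] at h5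
      have h6 := h.lower r' hr'
      linarith
  obtain ⟨r, hrR, hr, hrmax⟩ := exists_last
    (fun r => v - t ≤ max u (lv2 n (r + d)) + lv2 n (r + e) - lv2 n (r + d)) (by
      have h3 := le_max_left u (lv2 n (0 + d))
      have h4 := h.upper
      simp only [Nat.zero_add] at h3 ⊢
      linarith) R
  have hHr : max u (lv2 n (r + d)) + lv2 n (r + e) - lv2 n (r + d) ≤ v + 3 * t + L := by
    rcases hrmax with rfl | hrm
    · exact hHR
    · have h3 := not_le.1 hrm
      have h4 : lv2 n (r + e) ≤ lv2 n (r + 1 + e) := lv2_mono (by omega)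
      have h5 : lv2 n (r + 1 + d) ≤ lv2 n (r + d) + L := by
        have := hsucc (r + d)
        rwa [show r + d + 1 = r + 1 + d by omega] at this
      have h6 := le_max_left u (lv2 n (r + 1 + d))
      have h7 := le_max_right u (lv2 n (r + 1 + d))
      rcases le_total u (lv2 n (r + d)) with h8 | h8
      · rw [max_eq_right h8]
        linarith
      · rw [max_eq_left h8]
        linarith
  have hrd : lv2 n (r + d) ≤ u + t := (lv2_mono (by omega)).trans hR
  have hml := le_max_left u (lv2 n (r + d))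
  have hmr := le_max_right u (lv2 n (r + d))
  rcases Nat.lt_or_ge n (2 * r) with hrn | hrn
  · refine ⟨0, n / 2, Nat.zero_le n, by omega, ?_, ?_⟩
    · have h3 : lv2 n (n / 2) ≤ lv2 n (n / 2 + d) := lv2_mono (by omega)
      have h4 : lv2 n (n / 2) ≤ lv2 n (r + d) := lv2_mono (by omega)
      have h5 := lv2_le n (n / 2 + d)
      rw [Nat.cast_zero, zero_add, min_eq_right h5, abs_le]
      constructor <;> linarith
    · have h3 : lv2 n (n / 2) ≤ lv2 n (n / 2 + e) := lv2_mono (by omega)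
      have h4 : lv2 n (n / 2) ≤ lv2 n (r + e) := lv2_mono (by omega)
      have h5 := lv2_le n (n / 2 + e)
      rw [Nat.cast_zero, zero_add, min_eq_right h5, abs_le]
      constructor <;> linarith
  · obtain ⟨σ, hσ⟩ : ∃ σ : ℝ, σ = max u (lv2 n (r + d)) - lv2 n (r + d) := ⟨_, rfl⟩
    have hσ0 : 0 ≤ σ := by linarith
    have hσn : σ ≤ n + t := by
      have h3 : max u (lv2 n (r + d)) ≤ n + t := max_le h1 (by linarith [lv2_le n (r + d)])
      have h4 := lv2_nonneg n (r + d)
      linarith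
    have hs1 : ((min n ⌊σ⌋₊ : ℕ) : ℝ) ≤ σ :=
      le_trans (by exact_mod_cast min_le_right n ⌊σ⌋₊) (Nat.floor_le hσ0)
    have hs2 : σ ≤ ((min n ⌊σ⌋₊ : ℕ) : ℝ) + 1 + t := by
      rcases le_total n ⌊σ⌋₊ with h3 | h3
      · rw [min_eq_left h3]
        linarith
      · rw [min_eq_right h3]
        have := Nat.lt_floor_add_one σ
        linarith
    have hmu : max u (lv2 n (r + d)) ≤ u + t := max_le (by linarith) hrd
    refine ⟨min n ⌊σ⌋₊, r, min_le_left _ _, hrn, ?_, ?_⟩
    · rw [abs_le]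
      constructor
      · have h3 : u - t - 1 - t ≤ min (n : ℝ) (((min n ⌊σ⌋₊ : ℕ) : ℝ) + lv2 n (r + d)) :=
          le_min (by linarith) (by linarith)
        linarith
      · have h3 := min_le_right (n : ℝ) (((min n ⌊σ⌋₊ : ℕ) : ℝ) + lv2 n (r + d))
        linarith
    · rw [abs_le]
      constructor
      · have h3 : v - t - 1 - t ≤ min (n : ℝ) (((min n ⌊σ⌋₊ : ℕ) : ℝ) + lv2 n (r + e)) :=
          le_min (by linarith) (by linarith)
        linarith
      · have h3 := min_le_right (n : ℝ) (((min n ⌊σ⌋₊ : ℕ) : ℝ) + lv2 n (r + e))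
        linarith

theorem of_adm (hU : Opt U) (c : ℝ) : ∃ c' : ℝ, ∀ (n d e : ℕ) (u v : ℝ), d ≤ e → e ≤ n →
    Adm n d e (c * Real.logb 2 (2 + n)) u v → ∃ x : Fin n → Bool,
      |(maxC U x d : ℝ) - u| ≤ c' * Real.logb 2 (2 + n) ∧
      |(maxC U x e : ℝ) - v| ≤ c' * Real.logb 2 (2 + n) := by
  obtain ⟨c₀, hc₀⟩ := realize hU
  refine ⟨c₀ + 5 * |c| + 3, fun n d e u v hde he h => ?_⟩
  have hL := one_le_L n
  have hL0 : (0 : ℝ) ≤ Real.logb 2 (2 + n) := by linarith
  have h' := h.mono (show c * Real.logb 2 (2 + n) ≤ |c| * Real.logb 2 (2 + n) from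
    mul_le_mul_of_nonneg_right (le_abs_self c) hL0)
  obtain ⟨s, r, hs, hr, h1, h2⟩ := exists_params hde (mul_nonneg (abs_nonneg c) hL0) h'
  obtain ⟨x, hx⟩ := hc₀ n s r hs hr
  refine ⟨x, ?_, ?_⟩
  · have h3 := hx d (hde.trans he)
    have h4 := abs_sub_le (maxC U x d : ℝ) (min (n : ℝ) (s + lv2 n (r + d))) u
    unfold lv2 at h1 h4
    nlinarith
  · have h3 := hx e he
    have h4 := abs_sub_le (maxC U x e : ℝ) (min (n : ℝ) (s + lv2 n (r + e))) v
    unfold lv2 at h2 h4
    nlinarith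

end Pool.Agent.H709.HB
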