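import Pool.Agent.H709.HB.Code

set_option autoImplicit false

/-! Points of spheres about the centres most of whose neighbourhoods are not in given small sets. -/

namespace Pool.Agent.H709.HB

open Finset

variable {n : ℕ}

def spt (c y : Fin n → Bool) : Finset (Fin n) := univ.filter fun j => c j ≠ y j

def unspt (c : Fin n → Bool) (Y : Finset (Fin n)) : Fin n → Bool := fun j => if j ∈ Y then !c j else c j

theorem card_spt (c y : Fin n → Bool) : (spt c y).card = hammingDist c y := rfl

theorem mem_spt {c y : Fin n → Bool} {j : Fin n} : j ∈ spt c y ↔ c j ≠ y j := by simp [spt]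

theorem spt_unspt (c : Fin n → Bool) (Y : Finset (Fin n)) : spt c (unspt c Y) = Y := by
  ext j
  rw [mem_spt, unspt]
  split_ifs with h <;> simp [h]

theorem unspt_spt (c y : Fin n → Bool) : unspt c (spt c y) = y := by
  funext j
  rw [unspt]
  split_ifs with h
  · rw [mem_spt] at h
    revert h
    cases c j <;> cases y j <;> simp
  · rw [mem_spt] at h
    simpa using h

theorem dist_unspt (c : Fin n → Bool) {X Y : Finset (Fin n)} (h : X ⊆ Y) :
    hammingDist (unspt c X) (unspt c Y) = (Y \ X).card := by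
  have e : (univ.filter fun j => unspt c X j ≠ unspt c Y j) = Y \ X := by
    ext j
    rw [mem_filter, mem_sdiff, unspt, unspt]
    by_cases h1 : j ∈ X
    · simp [h1, h h1]
    · by_cases h2 : j ∈ Y <;> simp [h1, h2]
  rw [← e]
  rfl

theorem sph_eq (y : Fin n → Bool) (ρ : ℕ) : sph y ρ = n.choose ρ := by
  have h : (univ.filter fun v : Fin n → Bool => hammingDist v y = ρ) =
      (powersetCard ρ (univ : Finset (Fin n))).image (unspt y) := by
    ext v
    simp only [mem_filter, mem_univ, true_and, mem_image, mem_powersetCard, subset_univ]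
    constructor
    · intro h
      exact ⟨spt y v, by rw [card_spt, hammingDist_comm]; exact h, unspt_spt y v⟩
    · rintro ⟨Y, h1, rfl⟩
      rw [hammingDist_comm, ← card_spt, spt_unspt, h1]
  rw [sph, h, card_image_of_injective, card_powersetCard, card_univ, Fintype.card_fin]
  intro Y Y' h
  rw [← spt_unspt y Y, ← spt_unspt y Y', h]

theorem shadow {r d : ℕ} (𝒜 : Finset (Finset (Fin n))) (h𝒜 : ∀ X ∈ 𝒜, X.card = r)
    (ℬ : Finset (Finset (Fin n))) (hℬ : ∀ Y ∈ ℬ, Y.card = r + d)
    (h : ∀ X ∈ 𝒜, ∀ Y, X ⊆ Y → Y.card = r + d → Y ∈ ℬ) :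
    𝒜.card * (n - r).choose d ≤ ℬ.card * (r + d).choose r := by
  refine card_mul_le_card_mul (fun X Y => X ⊆ Y) (fun X hX => ?_) (fun Y hY => ?_)
  · have h1 : ((powersetCard d (univ \ X)).image (X ∪ ·)) ⊆ ℬ.bipartiteAbove (fun X Y => X ⊆ Y) X := by
      intro Y hY
      obtain ⟨Z, hZ, rfl⟩ := mem_image.1 hY
      obtain ⟨hZ1, hZ2⟩ := mem_powersetCard.1 hZ
      have h2 : Disjoint X Z := by
        rw [disjoint_left]
        intro j hj hj'
        exact (mem_sdiff.1 (hZ1 hj')).2 hj
      exact mem_filter.2 ⟨h X hX _ subset_union_left (by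
        rw [card_union_of_disjoint h2, hZ2, h𝒜 X hX]), subset_union_left⟩
    have h2 := card_le_card h1
    rw [card_image_of_injOn, card_powersetCard, card_sdiff_of_subset (subset_univ _), card_univ,
      Fintype.card_fin, h𝒜 X hX] at h2
    · exact h2
    · intro Z hZ Z' hZ' e
      have hZ := mem_powersetCard.1 (mem_coe.1 hZ)
      have hZ' := mem_powersetCard.1 (mem_coe.1 hZ')
      have key : ∀ W : Finset (Fin n), W ⊆ univ \ X → (X ∪ W) \ X = W := by
        intro W hW
        ext j
        simp only [mem_sdiff, mem_union]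
        constructor
        · tauto
        · intro hj
          exact ⟨Or.inr hj, (mem_sdiff.1 (hW hj)).2⟩
      simp only at e
      rw [← key Z hZ.1, ← key Z' hZ'.1, e]
  · have h1 : 𝒜.bipartiteBelow (fun X Y => X ⊆ Y) Y ⊆ powersetCard r Y := by
      intro X hX
      obtain ⟨hX1, hX2⟩ := mem_filter.1 hX
      exact mem_powersetCard.2 ⟨hX2, h𝒜 X hX1⟩
    have h2 := card_le_card h1
    rwa [card_powersetCard, hℬ Y hY] at h2

theorem shadow_cube {r d : ℕ} (hrd : r + d ≤ n) (c : Fin n → Bool) (X A : Finset (Fin n → Bool))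
    (hX : ∀ x ∈ X, hammingDist c x = r) (hA : ∀ x ∈ X, ∀ y, hammingDist x y ≤ d → y ∈ A) :
    X.card * n.choose (r + d) ≤
      (A.filter fun y => hammingDist c y = r + d).card * n.choose r := by
  classical
  have hinj : Function.Injective (spt c) := fun y y' h => by
    rw [← unspt_spt c y, ← unspt_spt c y', h]
  have h1 := shadow (r := r) (d := d) (X.image (spt c)) (by
      intro Y hY
      obtain ⟨x, hx, rfl⟩ := mem_image.1 hY
      exact hX x hx) ((A.filter fun y => hammingDist c y = r + d).image (spt c)) (by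
      intro Y hY
      obtain ⟨y, hy, rfl⟩ := mem_image.1 hY
      exact (mem_filter.1 hy).2) (by
      intro Z hZ Y hZY hY
      obtain ⟨x, hx, rfl⟩ := mem_image.1 hZ
      refine mem_image.2 ⟨unspt c Y, mem_filter.2 ⟨hA x hx _ ?_, ?_⟩, spt_unspt c Y⟩
      · have h2 := dist_unspt c hZY
        rw [unspt_spt, card_sdiff_of_subset hZY, hY, card_spt, hX x hx] at h2
        omega
      · rw [← card_spt, spt_unspt, hY])
  rw [card_image_of_injective _ hinj, card_image_of_injective _ hinj] at h1
  have h2 := Nat.choose_mul (n := n) (Nat.le_add_right r d)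
  rw [Nat.add_sub_cancel_left] at h2
  have h3 : 0 < (r + d).choose r := Nat.choose_pos (Nat.le_add_right r d)
  refine Nat.le_of_mul_le_mul_left (c := (r + d).choose r) ?_ h3
  calc (r + d).choose r * (X.card * n.choose (r + d))
      = X.card * (n.choose (r + d) * (r + d).choose r) := by ring
    _ = X.card * (n.choose r * (n - r).choose d) := by rw [h2]
    _ = (X.card * (n - r).choose d) * n.choose r := by ring
    _ ≤ ((A.filter fun y => hammingDist c y = r + d).card * (r + d).choose r) * n.choose r :=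
        Nat.mul_le_mul_right _ h1
    _ = (r + d).choose r * ((A.filter fun y => hammingDist c y = r + d).card * n.choose r) := by
        ring

theorem exists_point {r D N : ℕ} (hD : r + D ≤ n) (c : Fin N → Fin n → Bool)
    (hc : ∀ y : Fin n → Bool, ∀ ρ ≤ n,
      mlt c y ρ * 2 ^ n ≤ 2 * n * 2 ^ n + 2 * N * sph y ρ)
    (A : ℕ → Finset (Fin n → Bool))
    (hA : ∀ d ≤ D, (A d).card * (2 * n * 2 ^ n + 2 * N * n.choose (r + d)) * (n + 1) <
      N * n.choose (r + d) * 2 ^ n) :
    ∃ i x, hammingDist (c i) x = r ∧ ∀ d ≤ D, ∃ y, hammingDist x y ≤ d ∧ y ∉ A d := by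
  classical
  by_contra hcon
  push Not at hcon
  let X : Fin N → ℕ → Finset (Fin n → Bool) := fun i d =>
    univ.filter fun x => hammingDist (c i) x = r ∧ ∀ y, hammingDist x y ≤ d → y ∈ A d
  have h1 : ∀ i, n.choose r ≤ ∑ d ∈ range (D + 1), (X i d).card := by
    intro i
    rw [← sph_eq (c i) r]
    refine le_trans (card_le_card ?_) card_biUnion_le
    intro x hx
    have hx' : hammingDist (c i) x = r := by
      rw [hammingDist_comm]; exact (mem_filter.1 hx).2
    obtain ⟨d, hd, h2⟩ := hcon i x hx'
    exact mem_biUnion.2 ⟨d, mem_range.2 (by omega), mem_filter.2 ⟨mem_univ _, hx', h2⟩⟩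
  have h2 : ∀ d ≤ D, (∑ i, (X i d).card) * (n + 1) < N * n.choose r := by
    intro d hd
    have hrd : r + d ≤ n := by omega
    have h3 : (∑ i, (X i d).card) * n.choose (r + d) ≤
        (∑ y ∈ A d, mlt c y (r + d)) * n.choose r := by
      have h4 : ∑ y ∈ A d, mlt c y (r + d) =
          ∑ i, ((A d).filter fun y => hammingDist (c i) y = r + d).card := by
        simp only [mlt, card_filter]
        exact sum_comm
      rw [h4, sum_mul, sum_mul]
      refine sum_le_sum fun i _ => shadow_cube hrd (c i) (X i d) (A d) (fun x hx => ?_)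
        fun x hx => ?_
      · exact (mem_filter.1 hx).2.1
      · exact (mem_filter.1 hx).2.2
    have h4 : (∑ y ∈ A d, mlt c y (r + d)) * 2 ^ n ≤
        (A d).card * (2 * n * 2 ^ n + 2 * N * n.choose (r + d)) := by
      rw [sum_mul, ← smul_eq_mul (A d).card, ← sum_const]
      refine sum_le_sum fun y _ => ?_
      have := hc y (r + d) hrd
      rwa [sph_eq] at this
    have h5 : 0 < n.choose (r + d) := Nat.choose_pos hrd
    have h5' : 0 < n.choose r := Nat.choose_pos (by omega)
    have h6 : ((∑ i, (X i d).card) * (n + 1)) * (n.choose (r + d) * 2 ^ n) <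
        (N * n.choose r) * (n.choose (r + d) * 2 ^ n) := by
      calc ((∑ i, (X i d).card) * (n + 1)) * (n.choose (r + d) * 2 ^ n)
          = ((∑ i, (X i d).card) * n.choose (r + d)) * (2 ^ n * (n + 1)) := by ring
        _ ≤ ((∑ y ∈ A d, mlt c y (r + d)) * n.choose r) * (2 ^ n * (n + 1)) :=
            Nat.mul_le_mul_right _ h3
        _ = ((∑ y ∈ A d, mlt c y (r + d)) * 2 ^ n) * (n.choose r * (n + 1)) := by ring
        _ ≤ ((A d).card * (2 * n * 2 ^ n + 2 * N * n.choose (r + d))) * (n.choose r * (n + 1)) :=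
            Nat.mul_le_mul_right _ h4
        _ = ((A d).card * (2 * n * 2 ^ n + 2 * N * n.choose (r + d)) * (n + 1)) * n.choose r := by
            ring
        _ < (N * n.choose (r + d) * 2 ^ n) * n.choose r :=
            Nat.mul_lt_mul_of_pos_right (hA d hd) h5'
        _ = (N * n.choose r) * (n.choose (r + d) * 2 ^ n) := by ring
    exact Nat.lt_of_mul_lt_mul_right h6
  have h3 : N * n.choose r ≤ ∑ d ∈ range (D + 1), ∑ i, (X i d).card := by
    rw [sum_comm]
    calc N * n.choose r = ∑ _i : Fin N, n.choose r := by simp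
      _ ≤ _ := sum_le_sum fun i _ => h1 i
  have h4 : (∑ d ∈ range (D + 1), ∑ i, (X i d).card) * (n + 1) <
      (D + 1) * (N * n.choose r) := by
    rw [sum_mul]
    calc ∑ d ∈ range (D + 1), (∑ i, (X i d).card) * (n + 1)
        < ∑ _d ∈ range (D + 1), N * n.choose r := by
          refine sum_lt_sum_of_nonempty ⟨0, by simp⟩ fun d hd => h2 d ?_
          have := mem_range.1 hd
          omega
      _ = (D + 1) * (N * n.choose r) := by simp
  have h5 := Nat.mul_le_mul_right (n + 1) h3
  have h6 : (D + 1) * (N * n.choose r) ≤ N * n.choose r * (n + 1) := by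
    rw [Nat.mul_comm]
    exact Nat.mul_le_mul_left _ (by omega)
  omega

end Pool.Agent.H709.HB
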